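import Pool.Agent.W27.TP.Numeric

/-! Power saving over one progression for an arbitrary set. -/

set_option autoImplicit false

namespace Pool.Agent.W27.TP

open Finset Pool.Agent.W27.BG

/-- few bad pairs -/
theorem bad2_small {p : ℕ} [Fact p.Prime] (L : ℕ) (hL : L ≤ p) (hL1 : 1 ≤ L) (k : ℕ) (hk : 1 ≤ k)
    (hLk : p ≤ L ^ k) (χ : DirichletCharacter ℂ p) (hχ : χ ≠ 1) :
    ((Bad2 L χ ((L : ℝ) ^ (1 - 1 / (2 * (k : ℝ))))).card : ℝ)
      ≤ ((k : ℝ) ^ (2 * k) + (2 * k) ^ 2) * (L * p) := by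
  have hL0 : (0 : ℝ) < L := by exact_mod_cast hL1
  have hkR : (0 : ℝ) < k := by exact_mod_cast hk
  have h := bad2_bound L hL χ hχ ((L : ℝ) ^ (1 - 1 / (2 * (k : ℝ)))) (by positivity) k hk
  have e1 : ((L : ℝ) ^ (1 - 1 / (2 * (k : ℝ)))) ^ (2 * k) * L = (L : ℝ) ^ (2 * k) := by
    rw [← Real.rpow_natCast, ← Real.rpow_mul hL0.le, ← Real.rpow_add_one hL0.ne',
      ← Real.rpow_natCast]
    congr 1
    push_cast
    field_simp
    ring
  have hLk' : (p : ℝ) ≤ (L : ℝ) ^ k := by exact_mod_cast hLk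
  have h2 : (k : ℝ) ^ (2 * k) * (L : ℝ) ^ k * (p : ℝ) ^ 2 + (2 * k) ^ 2 * (L : ℝ) ^ (2 * k) * p
      ≤ ((k : ℝ) ^ (2 * k) + (2 * k) ^ 2) * ((L : ℝ) ^ (2 * k) * p) := by
    have h3 : (L : ℝ) ^ k * (p : ℝ) ^ 2 ≤ (L : ℝ) ^ (2 * k) * p := by
      calc (L : ℝ) ^ k * (p : ℝ) ^ 2 = ((L : ℝ) ^ k * p) * p := by ring
        _ ≤ ((L : ℝ) ^ k * (L : ℝ) ^ k) * p := by
            refine mul_le_mul_of_nonneg_right (mul_le_mul_of_nonneg_left hLk' (by positivity))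
              (Nat.cast_nonneg _)
        _ = _ := by ring
    have h4 : (k : ℝ) ^ (2 * k) * ((L : ℝ) ^ k * (p : ℝ) ^ 2)
        ≤ (k : ℝ) ^ (2 * k) * ((L : ℝ) ^ (2 * k) * p) := mul_le_mul_of_nonneg_left h3 (by positivity)
    nlinarith
  have h3 := h.trans h2
  set b : ℝ := ((L : ℝ) ^ (1 - 1 / (2 * (k : ℝ)))) ^ (2 * k) with hb
  have hb0 : 0 < b := by positivity
  rw [← e1] at h3
  have h5 : ((k : ℝ) ^ (2 * k) + (2 * k) ^ 2) * (b * L * p)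
      = (((k : ℝ) ^ (2 * k) + (2 * k) ^ 2) * (L * p)) * b := by ring
  rw [h5] at h3
  exact le_of_mul_le_mul_right h3 hb0

/-- numerical form -/
theorem box_numeric {p : ℕ} [Fact p.Prime] {ι : Type*} [Fintype ι] [DecidableEq ι] [Nonempty ι]
    (D : ℕ) (hD : Fintype.card ι ≤ D) (v : ι → ZMod p) (N : ι → ℕ) (L k : ℕ)
    (hL48 : 48 * D ≤ L)
    (hN : ∀ i, L ^ (D + 1) ≤ N i)
    (hS : (2 * Fintype.card ι).factorial * (∏ i, (2 * (4 * N i))) ^ 2 < p)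
    (hprop : ∀ y : ι → ℤ, (∀ i, |y i| ≤ N i) → lin v y = 0 → y = 0)
    (χ : DirichletCharacter ℂ p) (c : ZMod p) (A : Finset (ZMod p)) (α : ZMod p → ℂ)
    (hα : ∀ a, ‖α a‖ ≤ 1) :
    (∑ x ∈ bx N, ‖∑ a ∈ A, α a * χ (c + a + lin v x)‖) ^ 2
      ≤ 5 ^ D * (∏ i, (N i : ℝ)) *
        ((A.card : ℝ) ^ 2 * ((L : ℝ) ^ (-(1 / (2 * (k : ℝ)))) * (5 ^ D * ∏ i, (N i : ℝ))
          + 2 ^ D * (51 * D) ^ (2 * D) * (1 / L) * ∏ i, (N i : ℝ))
          + A.card * ((Bad2 L χ ((L : ℝ) ^ (1 - 1 / (2 * (k : ℝ))))).card *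
            (2 ^ D * (L : ℝ) ^ (4 * (D + 1) ^ 2) / ∏ i, (N i : ℝ)))) := by
  classical
  obtain ⟨M, Q, m, hM1, hMN, hm1, hQ, hQN, h1, h2⟩ := params D hD N L hL48 hN
  have hd1 : 1 ≤ Fintype.card ι := Fintype.card_pos
  have hD1 : 1 ≤ D := hd1.trans hD
  have hL1 : 1 ≤ L := by omega
  have hL0 : (0 : ℝ) < L := by exact_mod_cast hL1
  set B : ℝ := (L : ℝ) ^ (1 - 1 / (2 * (k : ℝ))) with hB
  have hB0 : 0 ≤ B := by positivity
  have h := box_bound v N M Q L hL1 hM1 hMN hS m hm1 hQ hQN hprop χ B hB0 c A α hα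
  refine h.trans ?_
  have hNR : ∀ i, (1 : ℝ) ≤ N i := fun i => by
    have h3 : 1 ≤ L ^ (D + 1) := Nat.one_le_pow _ _ (by omega)
    exact_mod_cast h3.trans (hN i)
  have hNpos : (0 : ℝ) < ∏ i, (N i : ℝ) := Finset.prod_pos fun i _ => by
    have := hNR i
    linarith
  set Pn := ∏ i, (N i : ℝ) with hPn
  have e2 : ∏ i, (4 * (N i : ℝ) + 1) ≤ 5 ^ D * Pn := by
    calc ∏ i, (4 * (N i : ℝ) + 1) ≤ ∏ i, (5 * (N i : ℝ)) :=
          Finset.prod_le_prod (fun i _ => by positivity) (fun i _ => by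
            have := hNR i
            linarith)
      _ = 5 ^ (Fintype.card ι) * Pn := by
          rw [Finset.prod_mul_distrib, Finset.prod_const, Finset.card_univ]
      _ ≤ 5 ^ D * Pn := mul_le_mul_of_nonneg_right
          (pow_le_pow_right₀ (by norm_num) hD) hNpos.le
  have e1 : B / L = (L : ℝ) ^ (-(1 / (2 * (k : ℝ)))) := by
    rw [hB, sub_eq_add_neg, Real.rpow_add hL0, Real.rpow_one]
    field_simp
  have hP0 : 0 ≤ ∏ i, (4 * (N i : ℝ) + 1) := Finset.prod_nonneg fun i _ => by positivity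
  have hM0 : 0 ≤ ∏ i, (M i : ℝ) := Finset.prod_nonneg fun i _ => by positivity
  have hA0 : (0 : ℝ) ≤ A.card := Nat.cast_nonneg _
  refine mul_le_mul e2 ?_ (by positivity) (by positivity)
  have e3 : (m : ℝ) ^ (2 * Fintype.card ι - 1) * (A.card *
          ((Bad2 L χ B).card + A.card * (∏ i, (2 * (Q i : ℝ) + 1)) ^ 2)) / ∏ i, (M i : ℝ)
      = (A.card : ℝ) ^ 2 * ((m : ℝ) ^ (2 * Fintype.card ι - 1) * (∏ i, (2 * (Q i : ℝ) + 1)) ^ 2
          * (1 / ∏ i, (M i : ℝ)))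
        + A.card * ((Bad2 L χ B).card * ((m : ℝ) ^ (2 * Fintype.card ι - 1)
          * (1 / ∏ i, (M i : ℝ)))) := by ring
  rw [e3, e1]
  have h3 : (L : ℝ) ^ (-(1 / (2 * (k : ℝ)))) * (A.card : ℝ) ^ 2 * ∏ i, (4 * (N i : ℝ) + 1)
      ≤ (A.card : ℝ) ^ 2 * ((L : ℝ) ^ (-(1 / (2 * (k : ℝ)))) * (5 ^ D * Pn)) := by
    calc _ = (A.card : ℝ) ^ 2 * ((L : ℝ) ^ (-(1 / (2 * (k : ℝ)))) * ∏ i, (4 * (N i : ℝ) + 1)) := by
          ring
      _ ≤ _ := mul_le_mul_of_nonneg_left (mul_le_mul_of_nonneg_left e2 (by positivity))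
          (by positivity)
  have h4 : (A.card : ℝ) ^ 2 * ((m : ℝ) ^ (2 * Fintype.card ι - 1)
      * (∏ i, (2 * (Q i : ℝ) + 1)) ^ 2 * (1 / ∏ i, (M i : ℝ)))
      ≤ (A.card : ℝ) ^ 2 * (2 ^ D * (51 * D) ^ (2 * D) * (1 / L) * Pn) :=
    mul_le_mul_of_nonneg_left h1 (by positivity)
  have h5 : (A.card : ℝ) * ((Bad2 L χ B).card * ((m : ℝ) ^ (2 * Fintype.card ι - 1)
          * (1 / ∏ i, (M i : ℝ))))
      ≤ A.card * ((Bad2 L χ B).card * (2 ^ D * (L : ℝ) ^ (4 * (D + 1) ^ 2) / Pn)) :=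
    mul_le_mul_of_nonneg_left (mul_le_mul_of_nonneg_left h2 (Nat.cast_nonneg _)) hA0
  rw [mul_add]
  linarith

/-- power saving over one progression -/
theorem box_pow (D : ℕ) (hD1 : 1 ≤ D) (ε : ℝ) (hε : 0 < ε) :
    ∃ κ : ℝ, 0 < κ ∧ κ * (D + 1) * D ≤ ε ∧ ∃ η : ℝ, 0 < η ∧
      ∃ P : ℕ, ∀ (p : ℕ) [Fact p.Prime], P ≤ p →
      ∀ (χ : DirichletCharacter ℂ p), χ ≠ 1 →
      ∀ (ι : Type) [Fintype ι] [DecidableEq ι] [Nonempty ι], Fintype.card ι ≤ D →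
      ∀ (v : ι → ZMod p) (N : ι → ℕ), (∀ i, (p : ℝ) ^ (κ * (D + 1)) ≤ N i) →
        ∏ i, (N i : ℝ) ≤ (p : ℝ) ^ (1 / 2 - ε) →
        (∀ y : ι → ℤ, (∀ i, |y i| ≤ N i) → lin v y = 0 → y = 0) →
        ∀ (c : ZMod p) (A : Finset (ZMod p)) (α : ZMod p → ℂ), (∀ a, ‖α a‖ ≤ 1) →
          (p : ℝ) ^ (1 + ε) ≤ A.card * (∏ i, (N i : ℝ)) ^ 2 →
          ∑ x ∈ bx N, ‖∑ a ∈ A, α a * χ (c + a + lin v x)‖
            ≤ (p : ℝ) ^ (-η) * (A.card * ∏ i, (N i : ℝ)) := by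
  classical
  have hDR : (1 : ℝ) ≤ D := by exact_mod_cast hD1
  obtain ⟨κ, hκdef⟩ : ∃ κ : ℝ, κ = min ε 1 / (16 * ((D : ℝ) + 1) ^ 2) := ⟨_, rfl⟩
  have hmin0 : 0 < min ε 1 := lt_min hε one_pos
  have hκ0 : 0 < κ := by rw [hκdef]; positivity
  have hκε : κ * (16 * ((D : ℝ) + 1) ^ 2) = min ε 1 := by rw [hκdef]; field_simp
  have hκε' : κ * (16 * ((D : ℝ) + 1) ^ 2) ≤ ε := hκε.le.trans (min_le_left _ _)
  have hκ1' : κ * (16 * ((D : ℝ) + 1) ^ 2) ≤ 1 := hκε.le.trans (min_le_right _ _)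
  have hκle : κ ≤ ε / 64 := by
    have h1 : (64 : ℝ) ≤ 16 * ((D : ℝ) + 1) ^ 2 := by nlinarith
    have h2 : κ * 64 ≤ κ * (16 * ((D : ℝ) + 1) ^ 2) := mul_le_mul_of_nonneg_left h1 hκ0.le
    linarith
  have hκ1 : κ ≤ 1 := by
    have h1 : (1 : ℝ) ≤ 16 * ((D : ℝ) + 1) ^ 2 := by nlinarith
    have h2 : κ * 1 ≤ κ * (16 * ((D : ℝ) + 1) ^ 2) := mul_le_mul_of_nonneg_left h1 hκ0.le
    linarith
  refine ⟨κ, hκ0, by nlinarith, ?_⟩
  obtain ⟨k, hk⟩ := exists_nat_ge (2 / κ)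
  have hκk : 2 ≤ κ * k := by
    rw [div_le_iff₀ hκ0] at hk
    linarith
  have hk1 : 1 ≤ k := by
    rcases Nat.eq_zero_or_pos k with h | h
    · subst h
      simp at hκk
      linarith
    · exact h
  have hkR : (1 : ℝ) ≤ k := by exact_mod_cast hk1
  obtain ⟨C2, hC2⟩ : ∃ C2 : ℝ, C2 = 2 ^ D * (51 * D) ^ (2 * D) := ⟨_, rfl⟩
  have hC20 : 0 ≤ C2 := by rw [hC2]; positivity
  obtain ⟨C3, hC3⟩ : ∃ C3 : ℝ, C3 = (k : ℝ) ^ (2 * k) + (2 * k) ^ 2 := ⟨_, rfl⟩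
  have hC30 : 0 ≤ C3 := by rw [hC3]; positivity
  obtain ⟨P1, hP1⟩ := large_rpow κ (48 * D + 1) hκ0
  obtain ⟨P3, hP3⟩ := large_rpow (2 * ε) ((2 * D).factorial * 64 ^ D) (by positivity)
  obtain ⟨P4, hP4⟩ := large_rpow (κ / 2) 2 (by positivity)
  obtain ⟨P5, hP5⟩ := large_rpow (κ / (8 * k)) (5 ^ D * (5 ^ D + C2 + C3 * 2 ^ D)) (by positivity)
  refine ⟨κ / (16 * k), by positivity, P1 + P3 + P4 + P5, ?_⟩
  intro p _ hp χ hχ ι _ _ _ hcard v N hN hup hprop c A α hα hAN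
  have hP1' := hP1 p (by omega)
  have hP3' := hP3 p (by omega)
  have hP4' := hP4 p (by omega)
  have hP5' := hP5 p (by omega)
  have hpn : 2 ≤ p := (Fact.out : p.Prime).two_le
  have hp1 : (1 : ℝ) ≤ p := by exact_mod_cast (by omega : 1 ≤ p)
  have hp0 : (0 : ℝ) < p := by linarith
  obtain ⟨L, hLdef⟩ : ∃ L : ℕ, L = ⌊(p : ℝ) ^ κ⌋₊ := ⟨_, rfl⟩
  have hLle : (L : ℝ) ≤ (p : ℝ) ^ κ := by rw [hLdef]; exact Nat.floor_le (by positivity)
  have hLlt : (p : ℝ) ^ κ < L + 1 := by rw [hLdef]; exact Nat.lt_floor_add_one _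
  have hL48 : 48 * D ≤ L := by
    have h1 : ((48 * D : ℕ) : ℝ) < L := by push_cast; linarith
    exact_mod_cast h1.le
  have hL1 : 1 ≤ L := by omega
  have hLR : (1 : ℝ) ≤ L := by exact_mod_cast hL1
  have hL0 : (0 : ℝ) < L := by linarith
  have hLhalf : (p : ℝ) ^ κ ≤ 2 * L := by linarith
  have hLp : L ≤ p := by
    have h1 : (L : ℝ) ≤ p := by
      calc (L : ℝ) ≤ (p : ℝ) ^ κ := hLle
        _ ≤ (p : ℝ) ^ (1 : ℝ) := Real.rpow_le_rpow_of_exponent_le hp1 hκ1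
        _ = p := Real.rpow_one _
    exact_mod_cast h1
  have hNL : ∀ i, L ^ (D + 1) ≤ N i := by
    intro i
    have h1 : (L : ℝ) ^ (D + 1) ≤ N i := by
      calc (L : ℝ) ^ (D + 1) ≤ ((p : ℝ) ^ κ) ^ (D + 1) := pow_le_pow_left₀ hL0.le hLle _
        _ = (p : ℝ) ^ (κ * (D + 1)) := by
            rw [← Real.rpow_natCast, ← Real.rpow_mul hp0.le]
            push_cast
            rfl
        _ ≤ N i := hN i
    exact_mod_cast h1
  have hN1 : ∀ i, (1 : ℝ) ≤ N i := fun i => by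
    have h1 := hNL i
    have h2 : 1 ≤ L ^ (D + 1) := Nat.one_le_pow _ _ (by omega)
    exact_mod_cast h2.trans h1
  have hNpos : (0 : ℝ) < ∏ i, (N i : ℝ) := Finset.prod_pos fun i _ => by
    have := hN1 i
    linarith
  set Pn := ∏ i, (N i : ℝ) with hPn
  have hS : (2 * Fintype.card ι).factorial * (∏ i, (2 * (4 * N i))) ^ 2 < p := by
    have h1 : (((2 * Fintype.card ι).factorial * (∏ i, (2 * (4 * N i))) ^ 2 : ℕ) : ℝ) < p := by
      push_cast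
      have e1 : ∏ i, (2 * (4 * (N i : ℝ))) = 8 ^ (Fintype.card ι) * Pn := by
        have : ∀ i, 2 * (4 * (N i : ℝ)) = 8 * N i := fun i => by ring
        simp only [this]
        rw [Finset.prod_mul_distrib, Finset.prod_const, Finset.card_univ]
      rw [e1]
      have h2 : ((2 * Fintype.card ι).factorial : ℝ) ≤ (2 * D).factorial := by
        exact_mod_cast Nat.factorial_le (Nat.mul_le_mul_left 2 hcard)
      have h3 : ((8 : ℝ) ^ (Fintype.card ι) * Pn) ^ 2 ≤ 64 ^ D * (p : ℝ) ^ (1 - 2 * ε) := by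
        rw [mul_pow, ← pow_mul, mul_comm _ 2, pow_mul]
        norm_num
        refine mul_le_mul (pow_le_pow_right₀ (by norm_num) hcard) ?_ (by positivity) (by positivity)
        calc Pn ^ 2 ≤ ((p : ℝ) ^ (1 / 2 - ε)) ^ 2 := pow_le_pow_left₀ hNpos.le hup 2
          _ = (p : ℝ) ^ (1 - 2 * ε) := by
              rw [← Real.rpow_natCast, ← Real.rpow_mul hp0.le]
              congr 1
              push_cast
              ring
      calc ((2 * Fintype.card ι).factorial : ℝ) * ((8 : ℝ) ^ (Fintype.card ι) * Pn) ^ 2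
          ≤ (2 * D).factorial * (64 ^ D * (p : ℝ) ^ (1 - 2 * ε)) :=
            mul_le_mul h2 h3 (by positivity) (by positivity)
        _ = ((2 * D).factorial * 64 ^ D) * (p : ℝ) ^ (1 - 2 * ε) := by ring
        _ < (p : ℝ) ^ (2 * ε) * (p : ℝ) ^ (1 - 2 * ε) :=
            mul_lt_mul_of_pos_right hP3' (by positivity)
        _ = p := by
            rw [← Real.rpow_add hp0]
            norm_num
    exact_mod_cast h1
  have h1 := box_numeric D hcard v N L k hL48 hNL hS hprop χ c A α hα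
  -- sizes
  have hLbig : (p : ℝ) ^ (κ / 2) ≤ L := by
    have e1 : (p : ℝ) ^ κ = (p : ℝ) ^ (κ / 2) * (p : ℝ) ^ (κ / 2) := by
      rw [← Real.rpow_add hp0]; congr 1; ring
    rw [e1] at hLhalf
    nlinarith [Real.rpow_pos_of_pos hp0 (κ / 2)]
  have hLk : p ≤ L ^ k := by
    have h2 : (p : ℝ) ≤ (L : ℝ) ^ k := by
      calc (p : ℝ) = (p : ℝ) ^ (1 : ℝ) := (Real.rpow_one _).symm
        _ ≤ (p : ℝ) ^ (κ / 2 * k) := Real.rpow_le_rpow_of_exponent_le hp1 (by linarith)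
        _ = ((p : ℝ) ^ (κ / 2)) ^ k := by rw [Real.rpow_mul hp0.le, Real.rpow_natCast]
        _ ≤ (L : ℝ) ^ k := pow_le_pow_left₀ (by positivity) hLbig k
    exact_mod_cast h2
  have hZ := bad2_small L hLp hL1 k hk1 hLk χ hχ
  rw [← hC3] at hZ
  set zc : ℝ := ((Bad2 L χ ((L : ℝ) ^ (1 - 1 / (2 * (k : ℝ))))).card : ℝ) with hzc
  have hA0 : (0 : ℝ) < A.card := by
    rcases (Nat.cast_nonneg A.card : (0 : ℝ) ≤ A.card).eq_or_lt with h | h
    · rw [← h, zero_mul] at hAN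
      have := Real.rpow_pos_of_pos hp0 (1 + ε)
      linarith
    · exact h
  set W := (p : ℝ) ^ (-(κ / (4 * k))) with hW
  have hW0 : 0 < W := by positivity
  have t1 : (L : ℝ) ^ (-(1 / (2 * (k : ℝ)))) ≤ W := by
    have e1 : W = ((p : ℝ) ^ (κ / 2)) ^ (-(1 / (2 * (k : ℝ)))) := by
      rw [hW, ← Real.rpow_mul hp0.le]
      congr 1
      field_simp
      ring
    rw [e1]
    apply Real.rpow_le_rpow_of_nonpos (by positivity) hLbig
    have : 0 < 1 / (2 * (k : ℝ)) := by positivity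
    linarith
  have hkk : κ / (4 * k) ≤ κ / 2 := by
    apply div_le_div_of_nonneg_left hκ0.le (by norm_num)
    linarith
  have t2 : 1 / (L : ℝ) ≤ W := by
    calc 1 / (L : ℝ) ≤ 1 / (p : ℝ) ^ (κ / 2) :=
          one_div_le_one_div_of_le (by positivity) hLbig
      _ = (p : ℝ) ^ (-(κ / 2)) := by rw [Real.rpow_neg hp0.le, one_div]
      _ ≤ W := Real.rpow_le_rpow_of_exponent_le hp1 (by linarith)
  have t3 : A.card * (zc * (2 ^ D * (L : ℝ) ^ (4 * (D + 1) ^ 2) / Pn))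
      ≤ (A.card : ℝ) ^ 2 * (C3 * 2 ^ D * W * Pn) := by
    have h2 : (L : ℝ) ^ (4 * (D + 1) ^ 2) ≤ (p : ℝ) ^ (ε / 4) := by
      calc (L : ℝ) ^ (4 * (D + 1) ^ 2) ≤ ((p : ℝ) ^ κ) ^ (4 * (D + 1) ^ 2) :=
            pow_le_pow_left₀ hL0.le hLle _
        _ = (p : ℝ) ^ (κ * (16 * ((D : ℝ) + 1) ^ 2) / 4) := by
            rw [← Real.rpow_natCast, ← Real.rpow_mul hp0.le]
            congr 1
            push_cast
            ring
        _ ≤ (p : ℝ) ^ (ε / 4) := Real.rpow_le_rpow_of_exponent_le hp1 (by linarith)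
    have h3 : zc * (2 ^ D * (L : ℝ) ^ (4 * (D + 1) ^ 2)) ≤ C3 * 2 ^ D * W * (A.card * Pn ^ 2) := by
      calc zc * (2 ^ D * (L : ℝ) ^ (4 * (D + 1) ^ 2))
          ≤ (C3 * ((p : ℝ) ^ κ * p)) * (2 ^ D * (p : ℝ) ^ (ε / 4)) := by
            refine mul_le_mul (hZ.trans ?_) (mul_le_mul_of_nonneg_left h2 (by positivity))
              (by positivity) (by positivity)
            refine mul_le_mul_of_nonneg_left ?_ hC30
            exact mul_le_mul_of_nonneg_right hLle (Nat.cast_nonneg _)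
        _ = C3 * 2 ^ D * (p : ℝ) ^ (κ + 1 + ε / 4) := by
            rw [Real.rpow_add hp0, Real.rpow_add hp0, Real.rpow_one]
            ring
        _ ≤ C3 * 2 ^ D * (W * (p : ℝ) ^ (1 + ε)) := by
            refine mul_le_mul_of_nonneg_left ?_ (by positivity)
            rw [hW, ← Real.rpow_add hp0]
            apply Real.rpow_le_rpow_of_exponent_le hp1
            linarith
        _ ≤ C3 * 2 ^ D * (W * (A.card * Pn ^ 2)) :=
            mul_le_mul_of_nonneg_left (mul_le_mul_of_nonneg_left hAN hW0.le) (by positivity)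
        _ = _ := by ring
    have e4 : A.card * (zc * (2 ^ D * (L : ℝ) ^ (4 * (D + 1) ^ 2) / Pn))
        = A.card * (zc * (2 ^ D * (L : ℝ) ^ (4 * (D + 1) ^ 2))) / Pn := by ring
    rw [e4, div_le_iff₀ hNpos]
    calc A.card * (zc * (2 ^ D * (L : ℝ) ^ (4 * (D + 1) ^ 2)))
        ≤ A.card * (C3 * 2 ^ D * W * (A.card * Pn ^ 2)) := mul_le_mul_of_nonneg_left h3 hA0.le
      _ = _ := by ring
  have hfin : (∑ x ∈ bx N, ‖∑ a ∈ A, α a * χ (c + a + lin v x)‖) ^ 2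
      ≤ 5 ^ D * (5 ^ D + C2 + C3 * 2 ^ D) * W * (A.card * Pn) ^ 2 := by
    refine h1.trans ?_
    have a1 : (L : ℝ) ^ (-(1 / (2 * (k : ℝ)))) * (5 ^ D * Pn)
          + 2 ^ D * (51 * D) ^ (2 * D) * (1 / L) * Pn ≤ (5 ^ D + C2) * W * Pn := by
      rw [← hC2]
      have b1 : (L : ℝ) ^ (-(1 / (2 * (k : ℝ)))) * (5 ^ D * Pn) ≤ W * (5 ^ D * Pn) :=
        mul_le_mul_of_nonneg_right t1 (by positivity)
      have b2 : C2 * (1 / L) * Pn ≤ C2 * W * Pn :=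
        mul_le_mul_of_nonneg_right (mul_le_mul_of_nonneg_left t2 hC20) hNpos.le
      calc _ ≤ W * (5 ^ D * Pn) + C2 * W * Pn := add_le_add b1 b2
        _ = _ := by ring
    calc 5 ^ D * Pn *
        ((A.card : ℝ) ^ 2 * ((L : ℝ) ^ (-(1 / (2 * (k : ℝ)))) * (5 ^ D * Pn)
          + 2 ^ D * (51 * D) ^ (2 * D) * (1 / L) * Pn)
          + A.card * (zc * (2 ^ D * (L : ℝ) ^ (4 * (D + 1) ^ 2) / Pn)))
        ≤ 5 ^ D * Pn * ((A.card : ℝ) ^ 2 * ((5 ^ D + C2) * W * Pn)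
          + (A.card : ℝ) ^ 2 * (C3 * 2 ^ D * W * Pn)) := by
          refine mul_le_mul_of_nonneg_left ?_ (by positivity)
          exact add_le_add (mul_le_mul_of_nonneg_left a1 (by positivity)) t3
      _ = _ := by ring
  have hW2 : 5 ^ D * (5 ^ D + C2 + C3 * 2 ^ D) * W ≤ ((p : ℝ) ^ (-(κ / (16 * k)))) ^ 2 := by
    have e5 : ((p : ℝ) ^ (-(κ / (16 * k)))) ^ 2 = (p : ℝ) ^ (κ / (8 * k)) * W := by
      rw [hW, ← Real.rpow_add hp0, ← Real.rpow_natCast, ← Real.rpow_mul hp0.le]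
      congr 1
      push_cast
      field_simp
      ring
    rw [e5]
    exact mul_le_mul_of_nonneg_right hP5'.le hW0.le
  have hsum0 : 0 ≤ ∑ x ∈ bx N, ‖∑ a ∈ A, α a * χ (c + a + lin v x)‖ :=
    Finset.sum_nonneg fun _ _ => norm_nonneg _
  refine le_of_sq_le_sq ?_ (by positivity)
  calc (∑ x ∈ bx N, ‖∑ a ∈ A, α a * χ (c + a + lin v x)‖) ^ 2
      ≤ 5 ^ D * (5 ^ D + C2 + C3 * 2 ^ D) * W * (A.card * Pn) ^ 2 := hfin
    _ ≤ ((p : ℝ) ^ (-(κ / (16 * k)))) ^ 2 * (A.card * Pn) ^ 2 :=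
        mul_le_mul_of_nonneg_right hW2 (by positivity)
    _ = _ := by ring

end Pool.Agent.W27.TP
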