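import Pool.Agent.W27.TP.Cover
import Pool.Agent.W27.TP.Pow

/-! Bilinear sums over an arbitrary set and a set of bounded doubling. -/

set_option autoImplicit false

open Finset
open scoped Pointwise

namespace Pool.Agent.W27.TP

open Pool.Agent.W27.BG Pool.Agent.W27.SD

/-- power saving over a set covered by translates of `B - B` -/
theorem cover_form (ε K : ℝ) (hε : 0 < ε) :
    ∃ η : ℝ, 0 < η ∧ ∃ P : ℕ, ∀ (p : ℕ) [Fact p.Prime], P ≤ p →
      ∀ (χ : DirichletCharacter ℂ p), χ ≠ 1 → ∀ B : Finset (ZMod p),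
        ((B + B).card : ℝ) ≤ K * B.card → ∀ A : Finset (ZMod p),
        (p : ℝ) ^ ε ≤ A.card → (p : ℝ) ^ (1 + ε) ≤ A.card * (B.card : ℝ) ^ 2 →
        ∀ α : ZMod p → ℂ, (∀ a, ‖α a‖ ≤ 1) → ∀ X Y : Finset (ZMod p),
        (∀ y ∈ Y, ∃ x ∈ X, ∃ b ∈ B, ∃ b' ∈ B, y = x + (b - b')) →
        ∑ y ∈ Y, ‖∑ a ∈ A, α a * χ (a + y)‖ ≤ (p : ℝ) ^ (-η) * (A.card * (X.card * B.card)) := by
  classical
  obtain ⟨e, hedef⟩ : ∃ e : ℝ, e = min ε 1 / 12 := ⟨_, rfl⟩
  have hmin : 0 < min ε 1 := lt_min hε one_pos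
  have he0 : 0 < e := by rw [hedef]; linarith
  have heε : 12 * e ≤ ε := by
    have := min_le_left ε 1
    rw [hedef]; linarith
  have he1 : 12 * e ≤ 1 := by
    have := min_le_right ε 1
    rw [hedef]; linarith
  obtain ⟨C, D, hC1, hD1, hcov⟩ := cover (K := max K 1) (le_max_right _ _)
  obtain ⟨κ, hκ0, hκD, η, hη, P0, hbox⟩ := box_pow D hD1 e he0
  obtain ⟨P1, hP1⟩ := large_rpow e (C * 3 ^ D) he0
  obtain ⟨P2, hP2⟩ := large_rpow e (2 ^ D) he0
  obtain ⟨P3, hP3⟩ := large_rpow (η / 2) (C * C * (5 ^ D * C)) (by positivity)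
  refine ⟨η / 2, by positivity, P0 + P1 + P2 + P3 + 3, ?_⟩
  intro p _ hp χ hχ B hBK A hA hAB α hα X Y hY
  have hP1' := hP1 p (by omega)
  have hP2' := hP2 p (by omega)
  have hP3' := hP3 p (by omega)
  have hp3 : 3 ≤ p := by omega
  have hp1n : 1 < p := by omega
  have hp1' : (1 : ℝ) < p := by exact_mod_cast hp1n
  have hp1 : (1 : ℝ) ≤ p := hp1'.le
  have hp0 : (0 : ℝ) < p := by linarith
  have hAp : (A.card : ℝ) ≤ p := by
    have h := Finset.card_le_univ A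
    rw [ZMod.card] at h
    exact_mod_cast h
  have hA0 : (0 : ℝ) < A.card := lt_of_lt_of_le (by positivity) hA
  have hBsq : (p : ℝ) ^ ε ≤ (B.card : ℝ) ^ 2 := by
    have h1 : (p : ℝ) ^ (1 + ε) ≤ p * (B.card : ℝ) ^ 2 :=
      hAB.trans (mul_le_mul_of_nonneg_right hAp (by positivity))
    rw [Real.rpow_add hp0, Real.rpow_one] at h1
    exact le_of_mul_le_mul_left h1 hp0
  have hBe : (p : ℝ) ^ (6 * e) ≤ B.card := by
    refine le_of_sq_le_sq ?_ (Nat.cast_nonneg _)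
    calc ((p : ℝ) ^ (6 * e)) ^ 2 = (p : ℝ) ^ (12 * e) := by
          rw [← Real.rpow_natCast, ← Real.rpow_mul hp0.le]
          congr 1
          push_cast
          ring
      _ ≤ (p : ℝ) ^ ε := Real.rpow_le_rpow_of_exponent_le hp1 heε
      _ ≤ _ := hBsq
  have hB0 : (0 : ℝ) < B.card := lt_of_lt_of_le (by positivity) hBe
  have hBne : B.Nonempty := by
    rw [← Finset.card_pos]
    exact_mod_cast hB0
  set θ : ℝ := (p : ℝ) ^ (κ * (D + 1)) with hθ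
  have hκ1 : 0 < κ * ((D : ℝ) + 1) := by positivity
  have hθ1 : 1 ≤ θ := Real.one_le_rpow hp1 hκ1.le
  have hθD : θ ^ D ≤ (p : ℝ) ^ e := by
    rw [hθ, ← Real.rpow_natCast, ← Real.rpow_mul hp0.le]
    exact Real.rpow_le_rpow_of_exponent_le hp1 hκD
  set Xv : ℝ := min (B.card : ℝ) ((p : ℝ) ^ (1 / 2 : ℝ)) * (p : ℝ) ^ (-(3 * e)) with hXv
  have hXlow : (p : ℝ) ^ (2 * e) ≤ Xv := by
    have h1 : (p : ℝ) ^ (5 * e) ≤ min (B.card : ℝ) ((p : ℝ) ^ (1 / 2 : ℝ)) := by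
      refine le_min ?_ ?_
      · exact (Real.rpow_le_rpow_of_exponent_le hp1 (by linarith)).trans hBe
      · exact Real.rpow_le_rpow_of_exponent_le hp1 (by linarith)
    calc (p : ℝ) ^ (2 * e) = (p : ℝ) ^ (5 * e) * (p : ℝ) ^ (-(3 * e)) := by
          rw [← Real.rpow_add hp0]; congr 1; ring
      _ ≤ Xv := mul_le_mul_of_nonneg_right h1 (by positivity)
  have hX1 : 1 < Xv := lt_of_lt_of_le (Real.one_lt_rpow hp1' (by linarith)) hXlow
  have hX0 : 0 < Xv := by linarith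
  have hθX : θ ^ D ≤ Xv := by
    refine (hθD.trans ?_).trans hXlow
    exact Real.rpow_le_rpow_of_exponent_le hp1 (by linarith)
  have hXB : C * (3 * θ) ^ D * Xv ≤ B.card := by
    calc C * (3 * θ) ^ D * Xv = (C * 3 ^ D) * θ ^ D * Xv := by rw [mul_pow]; ring
      _ ≤ (p : ℝ) ^ e * (p : ℝ) ^ e * Xv := by
          refine mul_le_mul_of_nonneg_right ?_ hX0.le
          exact mul_le_mul hP1'.le hθD (by positivity) (by positivity)
      _ ≤ (p : ℝ) ^ e * (p : ℝ) ^ e * (B.card * (p : ℝ) ^ (-(3 * e))) := by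
          refine mul_le_mul_of_nonneg_left ?_ (by positivity)
          exact mul_le_mul_of_nonneg_right (min_le_left _ _) (by positivity)
      _ = (p : ℝ) ^ (-e) * B.card := by
          rw [show (p : ℝ) ^ e * (p : ℝ) ^ e * (B.card * (p : ℝ) ^ (-(3 * e)))
            = ((p : ℝ) ^ e * (p : ℝ) ^ e * (p : ℝ) ^ (-(3 * e))) * B.card by ring,
            ← Real.rpow_add hp0, ← Real.rpow_add hp0]
          congr 2
          ring
      _ ≤ 1 * B.card := by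
          refine mul_le_mul_of_nonneg_right ?_ hB0.le
          exact Real.rpow_le_one_of_one_le_of_nonpos hp1 (by linarith)
      _ = B.card := one_mul _
  obtain ⟨ι, hι1, hι2, hι3, v, N, hιD, hNθ, hlow, hup, hprop, hS⟩ := hcov p hp3 B hBne
    (hBK.trans (mul_le_mul_of_nonneg_right (le_max_left _ _) hB0.le)) θ Xv hθ1 hθX hX1 hXB
  have hNpos : 0 < ∏ i, (N i : ℝ) := lt_of_lt_of_le hX0 hlow
  have hup' : ∏ i, (N i : ℝ) ≤ (p : ℝ) ^ (1 / 2 - e) := by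
    calc ∏ i, (N i : ℝ) ≤ 2 ^ D * Xv := hup
      _ ≤ (p : ℝ) ^ e * ((p : ℝ) ^ (1 / 2 : ℝ) * (p : ℝ) ^ (-(3 * e))) := by
          refine mul_le_mul hP2'.le ?_ hX0.le (by positivity)
          exact mul_le_mul_of_nonneg_right (min_le_right _ _) (by positivity)
      _ = (p : ℝ) ^ (1 / 2 - 2 * e) := by
          rw [← Real.rpow_add hp0, ← Real.rpow_add hp0]
          congr 1
          ring
      _ ≤ _ := Real.rpow_le_rpow_of_exponent_le hp1 (by linarith)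
  have hvol : (p : ℝ) ^ (1 + e) ≤ A.card * (∏ i, (N i : ℝ)) ^ 2 := by
    have h1 : (A.card : ℝ) * Xv ^ 2 ≤ A.card * (∏ i, (N i : ℝ)) ^ 2 :=
      mul_le_mul_of_nonneg_left (pow_le_pow_left₀ hX0.le hlow 2) hA0.le
    refine le_trans ?_ h1
    have e1 : ((p : ℝ) ^ (-(3 * e))) ^ 2 = (p : ℝ) ^ (-(6 * e)) := by
      rw [← Real.rpow_natCast, ← Real.rpow_mul hp0.le]
      congr 1
      push_cast
      ring
    rw [hXv, mul_pow, e1]
    rcases le_total (B.card : ℝ) ((p : ℝ) ^ (1 / 2 : ℝ)) with h | h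
    · rw [min_eq_left h]
      calc (p : ℝ) ^ (1 + e) ≤ (p : ℝ) ^ ((1 + ε) + -(6 * e)) :=
            Real.rpow_le_rpow_of_exponent_le hp1 (by linarith)
        _ = (p : ℝ) ^ (1 + ε) * (p : ℝ) ^ (-(6 * e)) := Real.rpow_add hp0 _ _
        _ ≤ (A.card * (B.card : ℝ) ^ 2) * (p : ℝ) ^ (-(6 * e)) :=
            mul_le_mul_of_nonneg_right hAB (by positivity)
        _ = _ := by ring
    · rw [min_eq_right h]
      have e2 : ((p : ℝ) ^ (1 / 2 : ℝ)) ^ 2 = p := by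
        rw [← Real.rpow_natCast, ← Real.rpow_mul hp0.le]
        norm_num
      rw [e2]
      calc (p : ℝ) ^ (1 + e) ≤ (p : ℝ) ^ (ε + (1 + -(6 * e))) :=
            Real.rpow_le_rpow_of_exponent_le hp1 (by linarith)
        _ = (p : ℝ) ^ ε * (p * (p : ℝ) ^ (-(6 * e))) := by
            rw [Real.rpow_add hp0, Real.rpow_add hp0, Real.rpow_one]
        _ ≤ A.card * (p * (p : ℝ) ^ (-(6 * e))) :=
            mul_le_mul_of_nonneg_right hA (by positivity)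
  obtain ⟨S, hScard, hScov⟩ := hS X
  -- the decomposition
  have hYsub : Y ⊆ (S ×ˢ bx N).image (fun q => q.1 + lin v q.2) := by
    intro y hy
    obtain ⟨x, hx, b, hb, b', hb', hyeq⟩ := hY y hy
    obtain ⟨s, hs, r, hr, e1⟩ := hScov x hx b hb b' hb'
    rw [Finset.mem_image]
    exact ⟨(s, r), Finset.mem_product.2 ⟨hs, mem_bx.2 hr⟩, by rw [hyeq, e1]⟩
  have h1 : ∑ y ∈ Y, ‖∑ a ∈ A, α a * χ (a + y)‖
      ≤ ∑ s ∈ S, ∑ x ∈ bx N, ‖∑ a ∈ A, α a * χ (s + a + lin v x)‖ := by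
    calc ∑ y ∈ Y, ‖∑ a ∈ A, α a * χ (a + y)‖
        ≤ ∑ y ∈ (S ×ˢ bx N).image (fun q => q.1 + lin v q.2), ‖∑ a ∈ A, α a * χ (a + y)‖ :=
          Finset.sum_le_sum_of_subset_of_nonneg hYsub (fun _ _ _ => norm_nonneg _)
      _ ≤ ∑ q ∈ S ×ˢ bx N, ‖∑ a ∈ A, α a * χ (a + (q.1 + lin v q.2))‖ :=
          Finset.sum_image_le_of_nonneg
            (f := fun y => ‖∑ a ∈ A, α a * χ (a + y)‖) (fun _ _ => norm_nonneg _)
      _ = ∑ s ∈ S, ∑ x ∈ bx N, ‖∑ a ∈ A, α a * χ (s + a + lin v x)‖ := by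
          rw [Finset.sum_product]
          refine Finset.sum_congr rfl fun s _ => Finset.sum_congr rfl fun x _ => ?_
          congr 1
          refine Finset.sum_congr rfl fun a _ => ?_
          congr 2
          ring
  refine h1.trans ?_
  calc ∑ s ∈ S, ∑ x ∈ bx N, ‖∑ a ∈ A, α a * χ (s + a + lin v x)‖
      ≤ ∑ _s ∈ S, (p : ℝ) ^ (-η) * (A.card * ∏ i, (N i : ℝ)) := by
        refine Finset.sum_le_sum fun s _ => ?_
        exact hbox p (by omega) χ hχ ι hιD v N hNθ hup' hprop s A α hα hvol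
    _ = (p : ℝ) ^ (-η) * A.card * (S.card * ∏ i, (N i : ℝ)) := by
        rw [Finset.sum_const, nsmul_eq_mul]
        ring
    _ ≤ (p : ℝ) ^ (-η) * A.card * ((C * C * (5 ^ D * C)) * (X.card * B.card)) :=
        mul_le_mul_of_nonneg_left hScard (by positivity)
    _ = (p : ℝ) ^ (-η) * (C * C * (5 ^ D * C)) * (A.card * (X.card * B.card)) := by ring
    _ ≤ (p : ℝ) ^ (-η) * (p : ℝ) ^ (η / 2) * (A.card * (X.card * B.card)) := by
        refine mul_le_mul_of_nonneg_right ?_ (by positivity)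
        exact mul_le_mul_of_nonneg_left hP3'.le (by positivity)
    _ = (p : ℝ) ^ (-(η / 2)) * (A.card * (X.card * B.card)) := by
        rw [← Real.rpow_add hp0]
        congr 2
        ring

/-- the theorem for sets that are almost invariant under a set of bounded doubling -/
theorem third (ε K : ℝ) (hε : 0 < ε) :
    ∃ δ : ℝ, 0 < δ ∧ ∃ P : ℕ, ∀ (p : ℕ) [Fact p.Prime], P ≤ p →
      ∀ (χ : DirichletCharacter ℂ p), χ ≠ 1 → ∀ B : Finset (ZMod p),
        ((B + B).card : ℝ) ≤ K * B.card → ∀ A : Finset (ZMod p),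
        (p : ℝ) ^ ε ≤ A.card → (p : ℝ) ^ (1 + ε) ≤ A.card * (B.card : ℝ) ^ 2 →
        ∀ Y : Finset (ZMod p), ((Y + B).card : ℝ) ≤ (p : ℝ) ^ δ * Y.card →
        ∀ α β : ZMod p → ℂ, (∀ a, ‖α a‖ ≤ 1) →
          ∑ y ∈ Y, ‖∑ a ∈ A, α a * χ (a + y)‖ ≤ (p : ℝ) ^ (-δ) * (A.card * Y.card) ∧
          ‖∑ a ∈ A, ∑ y ∈ Y, α a * β y * χ (a + y)‖
            ≤ (p : ℝ) ^ (-δ) * (A.card * Real.sqrt (Y.card * ∑ y ∈ Y, ‖β y‖ ^ 2)) := by
  classical
  obtain ⟨η, hη, P, hP⟩ := cover_form ε K hε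
  refine ⟨η / 4, by positivity, P, ?_⟩
  intro p _ hp χ hχ B hBK A hA hAB Y hYB α β hα
  have hp1' : (1 : ℝ) < p := by exact_mod_cast (Fact.out : p.Prime).one_lt
  have hp1 : (1 : ℝ) ≤ p := hp1'.le
  have hp0 : (0 : ℝ) < p := by linarith
  have hBne : B.Nonempty := by
    rw [Finset.nonempty_iff_ne_empty]
    rintro rfl
    simp only [Finset.card_empty, Nat.cast_zero] at hAB
    have := Real.rpow_pos_of_pos hp0 (1 + ε)
    norm_num at hAB
    linarith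
  have hB0 : (0 : ℝ) < B.card := by exact_mod_cast hBne.card_pos
  -- covering
  obtain ⟨F, hFA, hFcard, hFcov⟩ := Finset.ruzsa_covering_add (A := Y) (B := B)
    (K := (p : ℝ) ^ (η / 4) * Y.card / B.card) hBne (by
      rw [div_mul_cancel₀ _ hB0.ne']
      exact hYB)
  have hcov : ∀ a ∈ Y, ∃ x ∈ F, ∃ b ∈ B, ∃ b' ∈ B, a = x + (b - b') := by
    intro a ha
    have h1 := hFcov ha
    rw [Finset.mem_add] at h1
    obtain ⟨x, hx, d, hd, e⟩ := h1
    rw [Finset.mem_sub] at hd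
    obtain ⟨b, hb, b', hb', e'⟩ := hd
    exact ⟨x, hx, b, hb, b', hb', by rw [e', e]⟩
  have hFB : (F.card : ℝ) * B.card ≤ (p : ℝ) ^ (η / 4) * Y.card := by
    rwa [le_div_iff₀ hB0] at hFcard
  have h1 := hP p hp χ hχ B hBK A hA hAB α hα F Y hcov
  have h2 : ∑ y ∈ Y, ‖∑ a ∈ A, α a * χ (a + y)‖
      ≤ (p : ℝ) ^ (-(η / 2)) * (A.card * Y.card) := by
    calc _ ≤ (p : ℝ) ^ (-η) * (A.card * (F.card * B.card)) := h1
      _ ≤ (p : ℝ) ^ (-η) * (A.card * ((p : ℝ) ^ (η / 4) * Y.card)) := by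
          refine mul_le_mul_of_nonneg_left ?_ (by positivity)
          exact mul_le_mul_of_nonneg_left hFB (Nat.cast_nonneg _)
      _ = ((p : ℝ) ^ (-η) * (p : ℝ) ^ (η / 4)) * (A.card * Y.card) := by ring
      _ = (p : ℝ) ^ (-(3 * η / 4)) * (A.card * Y.card) := by
          rw [← Real.rpow_add hp0]
          congr 2
          ring
      _ ≤ _ := by
          refine mul_le_mul_of_nonneg_right ?_ (by positivity)
          exact Real.rpow_le_rpow_of_exponent_le hp1 (by linarith)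
  refine ⟨h2.trans ?_, ?_⟩
  · refine mul_le_mul_of_nonneg_right ?_ (by positivity)
    exact Real.rpow_le_rpow_of_exponent_le hp1 (by linarith)
  · set F' : ZMod p → ℂ := fun y => ∑ a ∈ A, α a * χ (a + y) with hF'
    have hF'le : ∀ y, ‖F' y‖ ≤ A.card := by
      intro y
      refine (norm_sum_le _ _).trans ?_
      calc ∑ a ∈ A, ‖α a * χ (a + y)‖ ≤ ∑ _a ∈ A, (1 : ℝ) := by
            refine Finset.sum_le_sum fun a _ => ?_
            rw [norm_mul]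
            exact mul_le_one₀ (hα a) (norm_nonneg _) (DirichletCharacter.norm_le_one χ _)
        _ = A.card := by simp
    have e1 : ∑ a ∈ A, ∑ y ∈ Y, α a * β y * χ (a + y) = ∑ y ∈ Y, β y * F' y := by
      rw [Finset.sum_comm]
      refine Finset.sum_congr rfl fun y _ => ?_
      rw [hF', Finset.mul_sum]
      refine Finset.sum_congr rfl fun a _ => ?_
      ring
    rw [e1]
    have h3 : ‖∑ y ∈ Y, β y * F' y‖ ≤ ∑ y ∈ Y, ‖β y‖ * ‖F' y‖ :=
      (norm_sum_le _ _).trans (Finset.sum_le_sum fun y _ => (norm_mul _ _).le)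
    have h4 : (∑ y ∈ Y, ‖β y‖ * ‖F' y‖) ^ 2 ≤ (∑ y ∈ Y, ‖β y‖ ^ 2) * ∑ y ∈ Y, ‖F' y‖ ^ 2 :=
      Finset.sum_mul_sq_le_sq_mul_sq _ _ _
    have h5 : ∑ y ∈ Y, ‖F' y‖ ^ 2 ≤ A.card * ((p : ℝ) ^ (-(η / 2)) * (A.card * Y.card)) := by
      calc ∑ y ∈ Y, ‖F' y‖ ^ 2 ≤ ∑ y ∈ Y, A.card * ‖F' y‖ := by
            refine Finset.sum_le_sum fun y _ => ?_
            rw [sq]
            exact mul_le_mul_of_nonneg_right (hF'le y) (norm_nonneg _)
        _ = A.card * ∑ y ∈ Y, ‖F' y‖ := by rw [Finset.mul_sum]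
        _ ≤ _ := mul_le_mul_of_nonneg_left h2 (Nat.cast_nonneg _)
    refine h3.trans ?_
    have hβ0 : 0 ≤ ∑ y ∈ Y, ‖β y‖ ^ 2 := Finset.sum_nonneg fun _ _ => by positivity
    refine le_of_sq_le_sq ?_ (by positivity)
    refine h4.trans ?_
    rw [mul_pow, mul_pow, Real.sq_sqrt (by positivity)]
    have e2 : ((p : ℝ) ^ (-(η / 4))) ^ 2 = (p : ℝ) ^ (-(η / 2)) := by
      rw [← Real.rpow_natCast, ← Real.rpow_mul hp0.le]
      congr 1
      push_cast
      ring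
    rw [e2]
    calc (∑ y ∈ Y, ‖β y‖ ^ 2) * ∑ y ∈ Y, ‖F' y‖ ^ 2
        ≤ (∑ y ∈ Y, ‖β y‖ ^ 2) * (A.card * ((p : ℝ) ^ (-(η / 2)) * (A.card * Y.card))) :=
          mul_le_mul_of_nonneg_left h5 hβ0
      _ = _ := by ring

end Pool.Agent.W27.TP
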