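import Pool.Agent.W27.BG.GapForm

/-! A shift in a progression for which few pairs of shifted ratios are bad. -/

set_option autoImplicit false

namespace Pool.Agent.W27.TP

open Finset Pool.Agent.W27.BG

variable {p : ℕ} [Fact p.Prime]

/-- weighted form of `pair_count` -/
theorem pair_weight {ι : Type*} [Fintype ι] [DecidableEq ι] [Nonempty ι] (v : ι → ZMod p)
    (S Q : ι → ℕ) (hS1 : ∀ i, 1 ≤ S i)
    (hS : (2 * Fintype.card ι).factorial * (∏ i, (2 * S i)) ^ 2 < p) (m : ℕ) (hm : 1 ≤ m)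
    (hQ : ∀ i, 6 * Fintype.card ι * S i ≤ m * Q i)
    (hprop : ∀ y : ι → ℤ, (∀ i, |y i| ≤ Q i) → lin v y = 0 → y = 0) (c : ZMod p)
    (h : ZMod p → ℕ) (H : ℕ) (hH : ∀ u, h u ≤ H) :
    ∑ q ∈ ((bx S) ×ˢ (bx S)).filter (fun q => lin v q.2 ≠ 0), h ((c + lin v q.1) / lin v q.2)
      ≤ m ^ (2 * Fintype.card ι - 1) * (∑ u, h u + H * (∏ i, (2 * Q i + 1)) ^ 2) := by
  classical
  have hlayer : ∀ u, h u = ∑ j ∈ range H, if j < h u then 1 else 0 := by
    intro u
    rw [← Finset.card_filter]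
    have : (range H).filter (fun j => j < h u) = range (h u) := by
      ext j
      rw [Finset.mem_filter, Finset.mem_range, Finset.mem_range]
      constructor
      · exact fun hj => hj.2
      · exact fun hj => ⟨hj.trans_le (hH u), hj⟩
    rw [this, Finset.card_range]
  have h1 : ∑ q ∈ ((bx S) ×ˢ (bx S)).filter (fun q => lin v q.2 ≠ 0),
        h ((c + lin v q.1) / lin v q.2)
      = ∑ j ∈ range H, (((bx S) ×ˢ (bx S)).filter (fun q => lin v q.2 ≠ 0 ∧
          (c + lin v q.1) / lin v q.2 ∈ univ.filter (fun u => j < h u))).card := by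
    calc _ = ∑ q ∈ ((bx S) ×ˢ (bx S)).filter (fun q => lin v q.2 ≠ 0),
        ∑ j ∈ range H, (if j < h ((c + lin v q.1) / lin v q.2) then 1 else 0) :=
          Finset.sum_congr rfl fun q _ => hlayer _
      _ = ∑ j ∈ range H, ∑ q ∈ ((bx S) ×ˢ (bx S)).filter (fun q => lin v q.2 ≠ 0),
          (if j < h ((c + lin v q.1) / lin v q.2) then 1 else 0) := Finset.sum_comm
      _ = _ := by
          refine Finset.sum_congr rfl fun j _ => ?_
          rw [← Finset.card_filter, Finset.filter_filter]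
          congr 1
          refine Finset.filter_congr fun q _ => ?_
          simp
  rw [h1]
  calc _ ≤ ∑ j ∈ range H, m ^ (2 * Fintype.card ι - 1) *
        ((univ.filter (fun u : ZMod p => j < h u)).card + (∏ i, (2 * Q i + 1)) ^ 2) :=
        Finset.sum_le_sum fun j _ => pair_count v S Q hS1 hS m hm hQ hprop c _
    _ = m ^ (2 * Fintype.card ι - 1) * (∑ j ∈ range H, (univ.filter (fun u : ZMod p => j < h u)).card
        + H * (∏ i, (2 * Q i + 1)) ^ 2) := by
        rw [← Finset.mul_sum, Finset.sum_add_distrib, Finset.sum_const, Finset.card_range,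
          smul_eq_mul]
    _ = _ := by
        congr 2
        simp only [Finset.card_filter]
        rw [Finset.sum_comm]
        exact Finset.sum_congr rfl fun u _ => (hlayer u).symm

/-- the number of bad pairs for the shift `y` -/
noncomputable def badPairs {ι : Type*} [Fintype ι] [DecidableEq ι] (v : ι → ZMod p) (S : ι → ℕ)
    (c : ZMod p) (A : Finset (ZMod p)) (Z : Finset (ZMod p × ZMod p)) (z : ZMod p) : ℕ :=
  ∑ x ∈ bx S, ∑ a ∈ A, (A.filter (fun a' => ((c + a + lin v x) / z, (c + a' + lin v x) / z) ∈ Z)).card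

/-- there is a shift in the progression for which few pairs are bad -/
theorem exists_good2 {ι : Type*} [Fintype ι] [DecidableEq ι] [Nonempty ι] (v : ι → ZMod p)
    (S Q M : ι → ℕ) (hS1 : ∀ i, 1 ≤ S i)
    (hS : (2 * Fintype.card ι).factorial * (∏ i, (2 * S i)) ^ 2 < p) (m : ℕ) (hm : 1 ≤ m)
    (hQ : ∀ i, 6 * Fintype.card ι * S i ≤ m * Q i)
    (hprop : ∀ y : ι → ℤ, (∀ i, |y i| ≤ Q i) → lin v y = 0 → y = 0) (c : ZMod p)
    (A : Finset (ZMod p)) (Z : Finset (ZMod p × ZMod p)) (hM1 : ∀ i, 1 ≤ M i)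
    (hpropM : ∀ y : ι → ℤ, (∀ i, |y i| ≤ M i) → lin v y = 0 → y = 0) (hMS : ∀ i, M i ≤ S i) :
    ∃ y : ι → ℤ, (∀ i, |y i| ≤ M i) ∧ lin v y ≠ 0 ∧
      (badPairs v S c A Z (lin v y) : ℝ) * ∏ i, (M i : ℝ)
        ≤ (m : ℝ) ^ (2 * Fintype.card ι - 1) * (A.card *
          (Z.card + A.card * (∏ i, (2 * (Q i : ℝ) + 1)) ^ 2)) := by
  classical
  set Y := (bx M).erase 0 with hY
  have hYmem : ∀ y ∈ Y, (∀ i, |y i| ≤ M i) ∧ lin v y ≠ 0 := by
    intro y hy
    rw [hY, Finset.mem_erase, mem_bx] at hy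
    exact ⟨hy.2, fun h0 => hy.1 (hpropM y hy.2 h0)⟩
  have hYcard : ∏ i, M i ≤ Y.card := by
    have h0 : (0 : ι → ℤ) ∈ bx M := by rw [mem_bx]; intro i; simp
    rw [hY, Finset.card_erase_of_mem h0, card_bx]
    have h1 : ∏ i, M i + 1 ≤ ∏ i, (2 * M i + 1) := by
      obtain ⟨i0⟩ := (inferInstance : Nonempty ι)
      rw [← Finset.mul_prod_erase _ _ (Finset.mem_univ i0),
        ← Finset.mul_prod_erase _ _ (Finset.mem_univ i0)]
      have h2 : ∏ i ∈ Finset.univ.erase i0, M i ≤ ∏ i ∈ Finset.univ.erase i0, (2 * M i + 1) :=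
        Finset.prod_le_prod (fun _ _ => Nat.zero_le _) (fun i _ => by omega)
      have h3 : 1 ≤ ∏ i ∈ Finset.univ.erase i0, (2 * M i + 1) :=
        Finset.one_le_prod' (fun i _ => by omega)
      have h4 := hM1 i0
      calc M i0 * ∏ i ∈ Finset.univ.erase i0, M i + 1
          ≤ M i0 * ∏ i ∈ Finset.univ.erase i0, (2 * M i + 1)
            + 1 * ∏ i ∈ Finset.univ.erase i0, (2 * M i + 1) := by
            rw [one_mul]; exact Nat.add_le_add (Nat.mul_le_mul_left _ h2) h3
        _ = (M i0 + 1) * ∏ i ∈ Finset.univ.erase i0, (2 * M i + 1) := by ring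
        _ ≤ _ := Nat.mul_le_mul_right _ (by omega)
    omega
  have hYne : Y.Nonempty := by
    rw [← Finset.card_pos]
    exact lt_of_lt_of_le (Finset.prod_pos fun i _ => hM1 i) hYcard
  -- the minimal shift
  obtain ⟨y, hyY, hymin⟩ := Finset.exists_min_image Y
    (fun y => badPairs v S c A Z (lin v y)) hYne
  refine ⟨y, (hYmem y hyY).1, (hYmem y hyY).2, ?_⟩
  -- the weight
  let h : ZMod p → ℕ := fun u => min (univ.filter (fun u' : ZMod p => (u, u') ∈ Z)).card A.card
  have hsumh : ∑ u, h u ≤ Z.card := by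
    calc ∑ u, h u ≤ ∑ u, (univ.filter (fun u' : ZMod p => (u, u') ∈ Z)).card :=
          Finset.sum_le_sum fun u _ => min_le_left _ _
      _ = Z.card := by
          simp only [Finset.card_filter]
          rw [← Finset.sum_product', Finset.univ_product_univ]
          rw [← Finset.card_filter]
          congr 1
          ext q
          simp
  have hcount : ∀ (x w : ι → ℤ) (a : ZMod p), lin v w ≠ 0 →
      (A.filter (fun a' => ((c + a + lin v x) / lin v w, (c + a' + lin v x) / lin v w) ∈ Z)).card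
        ≤ h ((c + a + lin v x) / lin v w) := by
    intro x w a hw
    refine le_min ?_ (Finset.card_filter_le _ _)
    refine Finset.card_le_card_of_injOn (fun a' => (c + a' + lin v x) / lin v w) ?_ ?_
    · intro a' ha'
      rw [Finset.mem_coe, Finset.mem_filter] at ha'
      rw [Finset.mem_coe, Finset.mem_filter]
      exact ⟨Finset.mem_univ _, ha'.2⟩
    · intro a' _ a'' _ haa
      simp only at haa
      rw [div_left_inj' hw] at haa
      exact add_left_cancel (add_right_cancel haa)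
  have hsum : ∑ y' ∈ Y, badPairs v S c A Z (lin v y')
      ≤ ∑ a ∈ A, ∑ q ∈ ((bx S) ×ˢ (bx S)).filter (fun q => lin v q.2 ≠ 0),
        h ((c + a + lin v q.1) / lin v q.2) := by
    have h1 : ∑ y' ∈ Y, badPairs v S c A Z (lin v y')
        ≤ ∑ y' ∈ Y, ∑ x ∈ bx S, ∑ a ∈ A, h ((c + a + lin v x) / lin v y') := by
      refine Finset.sum_le_sum fun y' hy' => ?_
      unfold badPairs
      exact Finset.sum_le_sum fun x _ => Finset.sum_le_sum fun a _ =>
        hcount x y' a (hYmem y' hy').2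
    refine h1.trans ?_
    have h2 : ∑ y' ∈ Y, ∑ x ∈ bx S, ∑ a ∈ A, h ((c + a + lin v x) / lin v y')
        = ∑ a ∈ A, ∑ q ∈ (bx S) ×ˢ Y, h ((c + a + lin v q.1) / lin v q.2) := by
      calc _ = ∑ y' ∈ Y, ∑ a ∈ A, ∑ x ∈ bx S, h ((c + a + lin v x) / lin v y') :=
            Finset.sum_congr rfl fun y' _ => Finset.sum_comm
        _ = ∑ a ∈ A, ∑ y' ∈ Y, ∑ x ∈ bx S, h ((c + a + lin v x) / lin v y') := Finset.sum_comm
        _ = _ := by
            refine Finset.sum_congr rfl fun a _ => ?_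
            rw [Finset.sum_product_right]
    rw [h2]
    refine Finset.sum_le_sum fun a _ => ?_
    refine Finset.sum_le_sum_of_subset ?_
    intro q hq
    rw [Finset.mem_product] at hq
    rw [Finset.mem_filter, Finset.mem_product]
    refine ⟨⟨hq.1, ?_⟩, (hYmem q.2 hq.2).2⟩
    rw [mem_bx]
    intro i
    exact ((hYmem q.2 hq.2).1 i).trans (by exact_mod_cast hMS i)
  have hfinal : badPairs v S c A Z (lin v y) * ∏ i, M i
      ≤ m ^ (2 * Fintype.card ι - 1) * (A.card * (Z.card + A.card * (∏ i, (2 * Q i + 1)) ^ 2)) := by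
    calc badPairs v S c A Z (lin v y) * ∏ i, M i
        ≤ badPairs v S c A Z (lin v y) * Y.card := Nat.mul_le_mul_left _ hYcard
      _ = ∑ _y' ∈ Y, badPairs v S c A Z (lin v y) := by
          rw [Finset.sum_const, smul_eq_mul, mul_comm]
      _ ≤ ∑ y' ∈ Y, badPairs v S c A Z (lin v y') :=
          Finset.sum_le_sum fun y' hy' => hymin y' hy'
      _ ≤ ∑ a ∈ A, ∑ q ∈ ((bx S) ×ˢ (bx S)).filter (fun q => lin v q.2 ≠ 0),
        h ((c + a + lin v q.1) / lin v q.2) := hsum
      _ ≤ ∑ _a ∈ A, m ^ (2 * Fintype.card ι - 1) *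
          (Z.card + A.card * (∏ i, (2 * Q i + 1)) ^ 2) := by
          refine Finset.sum_le_sum fun a _ => ?_
          refine (pair_weight v S Q hS1 hS m hm hQ hprop (c + a) h A.card
            (fun u => min_le_right _ _)).trans ?_
          exact Nat.mul_le_mul_left _ (Nat.add_le_add_right hsumh _)
      _ = _ := by
          rw [Finset.sum_const, smul_eq_mul]
          ring
  exact_mod_cast hfinal

end Pool.Agent.W27.TP
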