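import Pool.Agent.W27.TP.Moment
import Pool.Agent.W27.TP.Weight
import Pool.Agent.W27.BG.Numeric

/-! Sums over one progression of the absolute value of a character sum over an arbitrary set. -/

set_option autoImplicit false

namespace Pool.Agent.W27.TP

open Finset Pool.Agent.W27.BG

variable {p : ℕ} [Fact p.Prime]

/-- the inner sum, squared and summed over the short shifts -/
theorem inner_bound (L : ℕ) (χ : DirichletCharacter ℂ p) (B : ℝ) (hB : 0 ≤ B) (A : Finset (ZMod p))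
    (α : ZMod p → ℂ) (hα : ∀ a, ‖α a‖ ≤ 1) (u : ZMod p → ZMod p) :
    ∑ l ∈ range L, ‖∑ a ∈ A, α a * χ (u a + (l : ZMod p))‖ ^ 2
      ≤ B * (A.card : ℝ) ^ 2
        + L * ∑ a ∈ A, ((A.filter (fun a' => (u a, u a') ∈ Bad2 L χ B)).card : ℝ) := by
  classical
  have h1 : ((∑ l ∈ range L, ‖∑ a ∈ A, α a * χ (u a + (l : ZMod p))‖ ^ 2 : ℝ) : ℂ)
      = ∑ a ∈ A, ∑ a' ∈ A, α a * (starRingEnd ℂ) (α a') * G2 L χ (u a) (u a') := by
    push_cast
    have e1 : ∀ l ∈ range L, ((‖∑ a ∈ A, α a * χ (u a + (l : ZMod p))‖ : ℝ) : ℂ) ^ 2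
        = ∑ a ∈ A, ∑ a' ∈ A, α a * (starRingEnd ℂ) (α a') *
          (χ (u a + (l : ZMod p)) * (starRingEnd ℂ) (χ (u a' + (l : ZMod p)))) := by
      intro l _
      rw [← Complex.mul_conj', map_sum, Finset.sum_mul_sum]
      refine Finset.sum_congr rfl fun a _ => Finset.sum_congr rfl fun a' _ => ?_
      rw [map_mul]
      ring
    rw [Finset.sum_congr rfl e1, Finset.sum_comm]
    refine Finset.sum_congr rfl fun a _ => ?_
    rw [Finset.sum_comm]
    refine Finset.sum_congr rfl fun a' _ => ?_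
    unfold G2
    rw [Finset.mul_sum]
  have h0 : 0 ≤ ∑ l ∈ range L, ‖∑ a ∈ A, α a * χ (u a + (l : ZMod p))‖ ^ 2 :=
    Finset.sum_nonneg fun _ _ => by positivity
  have h2 : ∑ l ∈ range L, ‖∑ a ∈ A, α a * χ (u a + (l : ZMod p))‖ ^ 2
      = ‖∑ a ∈ A, ∑ a' ∈ A, α a * (starRingEnd ℂ) (α a') * G2 L χ (u a) (u a')‖ := by
    rw [← h1, Complex.norm_real, Real.norm_eq_abs, abs_of_nonneg h0]
  rw [h2]
  refine (norm_sum_le _ _).trans ?_
  refine (Finset.sum_le_sum fun a _ => norm_sum_le _ _).trans ?_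
  have h3 : ∀ a a', ‖α a * (starRingEnd ℂ) (α a') * G2 L χ (u a) (u a')‖
      ≤ B + (if (u a, u a') ∈ Bad2 L χ B then (L : ℝ) else 0) := by
    intro a a'
    have h4 : ‖α a * (starRingEnd ℂ) (α a') * G2 L χ (u a) (u a')‖ ≤ ‖G2 L χ (u a) (u a')‖ := by
      rw [norm_mul, norm_mul, RCLike.norm_conj]
      refine mul_le_of_le_one_left (norm_nonneg _) ?_
      exact mul_le_one₀ (hα a) (norm_nonneg _) (hα a')
    refine h4.trans ?_
    split_ifs with h
    · have := G2_le L χ (u a) (u a')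
      linarith
    · rw [mem_Bad2] at h
      have := not_lt.1 h
      simp only at this
      linarith
  refine (Finset.sum_le_sum fun a _ => Finset.sum_le_sum fun a' _ => h3 a a').trans ?_
  simp only [Finset.sum_add_distrib, Finset.sum_const, nsmul_eq_mul]
  have h5 : ∀ a, ∑ a' ∈ A, (if (u a, u a') ∈ Bad2 L χ B then (L : ℝ) else 0)
      = L * ((A.filter (fun a' => (u a, u a') ∈ Bad2 L χ B)).card : ℝ) := by
    intro a
    rw [← Finset.sum_filter, Finset.sum_const, nsmul_eq_mul]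
    ring
  simp only [h5]
  rw [← Finset.mul_sum]
  apply le_of_eq
  ring

/-- the sum over a progression -/
theorem box_bound {ι : Type*} [Fintype ι] [DecidableEq ι] [Nonempty ι] (v : ι → ZMod p)
    (N M Q : ι → ℕ) (L : ℕ) (hL0 : 0 < L) (hM1 : ∀ i, 1 ≤ M i) (hMN : ∀ i, L * M i ≤ N i)
    (hS : (2 * Fintype.card ι).factorial * (∏ i, (2 * (4 * N i))) ^ 2 < p) (m : ℕ) (hm : 1 ≤ m)
    (hQ : ∀ i, 6 * Fintype.card ι * (4 * N i) ≤ m * Q i) (hQN : ∀ i, Q i ≤ N i)
    (hprop : ∀ y : ι → ℤ, (∀ i, |y i| ≤ N i) → lin v y = 0 → y = 0)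
    (χ : DirichletCharacter ℂ p) (B : ℝ) (hB : 0 ≤ B) (c : ZMod p)
    (A : Finset (ZMod p)) (α : ZMod p → ℂ) (hα : ∀ a, ‖α a‖ ≤ 1) :
    (∑ x ∈ bx N, ‖∑ a ∈ A, α a * χ (c + a + lin v x)‖) ^ 2
      ≤ (∏ i, (4 * (N i : ℝ) + 1)) *
        (B / L * (A.card : ℝ) ^ 2 * ∏ i, (4 * (N i : ℝ) + 1)
          + (m : ℝ) ^ (2 * Fintype.card ι - 1) * (A.card *
          ((Bad2 L χ B).card + A.card * (∏ i, (2 * (Q i : ℝ) + 1)) ^ 2)) / ∏ i, (M i : ℝ)) := by
  classical
  have hLR : (0 : ℝ) < L := by exact_mod_cast hL0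
  have hN1 : ∀ i, 1 ≤ N i := fun i => by
    have h1 := hM1 i
    have h2 := hMN i
    have h3 : 1 * 1 ≤ L * M i := Nat.mul_le_mul hL0 h1
    omega
  have hMN' : ∀ i, M i ≤ N i := fun i => by
    have h2 := hMN i
    have h3 : 1 * M i ≤ L * M i := Nat.mul_le_mul_right _ hL0
    omega
  obtain ⟨y, hyM, hy0, hyR⟩ := exists_good2 v (fun i => 4 * N i) Q M
    (fun i => by have := hN1 i; omega) hS m hm hQ
    (fun y hy => hprop y (fun i => (hy i).trans (by exact_mod_cast hQN i)))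
    c A (Bad2 L χ B) hM1
    (fun y hy => hprop y (fun i => (hy i).trans (by exact_mod_cast hMN' i)))
    (fun i => by have := hMN' i; omega)
  set z := lin v y with hz
  set R : ℝ := (badPairs v (fun i => 4 * N i) c A (Bad2 L χ B) z : ℝ) with hR
  have hMpos : (0 : ℝ) < ∏ i, (M i : ℝ) := by
    refine Finset.prod_pos fun i _ => ?_
    exact_mod_cast hM1 i
  have hRle : R ≤ (m : ℝ) ^ (2 * Fintype.card ι - 1) * (A.card *
          ((Bad2 L χ B).card + A.card * (∏ i, (2 * (Q i : ℝ) + 1)) ^ 2)) / ∏ i, (M i : ℝ) := by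
    rw [le_div_iff₀ hMpos]
    exact hyR
  set f : ZMod p → ℝ := fun w => ‖∑ a ∈ A, α a * χ (c + a + w)‖ with hf
  have hf0 : ∀ w, 0 ≤ f w := fun w => norm_nonneg _
  set W := bx (fun i => 2 * N i) with hW
  have hWcard : (W.card : ℝ) = ∏ i, (4 * (N i : ℝ) + 1) := by
    rw [hW, card_bx]
    push_cast
    refine Finset.prod_congr rfl fun i _ => ?_
    ring
  -- shifting
  have hshift : ∀ l ∈ range L, ∑ x ∈ bx N, f (lin v x) ≤ ∑ x ∈ W, f (lin v x + (l : ZMod p) * z) := by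
    intro l hl
    have hl' := Finset.mem_range.1 hl
    have h1 : ∑ x ∈ bx N, f (lin v x)
        = ∑ x ∈ (bx N).image (fun x => x - (l : ℤ) • y), f (lin v x + (l : ZMod p) * z) := by
      rw [Finset.sum_image]
      · refine Finset.sum_congr rfl fun x _ => ?_
        congr 1
        rw [lin_sub, lin_zsmul, hz]
        push_cast
        ring
      · intro a _ b _ hab
        exact sub_left_injective hab
    rw [h1]
    refine Finset.sum_le_sum_of_subset_of_nonneg ?_ fun _ _ _ => hf0 _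
    intro x hx
    rw [Finset.mem_image] at hx
    obtain ⟨x', hx', rfl⟩ := hx
    rw [mem_bx] at hx'
    rw [hW, mem_bx]
    intro j
    rw [Pi.sub_apply, Pi.smul_apply, smul_eq_mul]
    have h1 : |(l : ℤ) * y j| ≤ N j := by
      rw [abs_mul, abs_of_nonneg (by positivity : (0 : ℤ) ≤ (l : ℤ))]
      calc (l : ℤ) * |y j| ≤ L * M j :=
            mul_le_mul (by exact_mod_cast hl'.le) (hyM j) (abs_nonneg _) (by positivity)
        _ ≤ N j := by exact_mod_cast hMN j
    calc |x' j - (l : ℤ) * y j| ≤ |x' j| + |(l : ℤ) * y j| := abs_sub _ _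
      _ ≤ N j + N j := add_le_add (hx' j) h1
      _ = ((2 * N j : ℕ) : ℤ) := by push_cast; ring
  have hLsum : (L : ℝ) * ∑ x ∈ bx N, f (lin v x)
      ≤ ∑ x ∈ W, ∑ l ∈ range L, f (lin v x + (l : ZMod p) * z) := by
    rw [Finset.sum_comm]
    calc (L : ℝ) * ∑ x ∈ bx N, f (lin v x) = ∑ _l ∈ range L, ∑ x ∈ bx N, f (lin v x) := by
          rw [Finset.sum_const, Finset.card_range, nsmul_eq_mul]
      _ ≤ _ := Finset.sum_le_sum hshift
  -- the inner sums
  let u : (ι → ℤ) → ZMod p → ZMod p := fun x a => (c + a + lin v x) / z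
  have hfu : ∀ x, ∀ l ∈ range L, f (lin v x + (l : ZMod p) * z)
      ≤ ‖∑ a ∈ A, α a * χ (u x a + (l : ZMod p))‖ := by
    intro x l _
    have h1 : ∑ a ∈ A, α a * χ (c + a + (lin v x + (l : ZMod p) * z))
        = χ z * ∑ a ∈ A, α a * χ (u x a + (l : ZMod p)) := by
      rw [Finset.mul_sum]
      refine Finset.sum_congr rfl fun a _ => ?_
      have h2 : c + a + (lin v x + (l : ZMod p) * z) = z * (u x a + (l : ZMod p)) := by
        show _ = z * ((c + a + lin v x) / z + (l : ZMod p))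
        field_simp
        ring
      rw [h2, map_mul]
      ring
    simp only [hf]
    rw [h1, norm_mul]
    exact mul_le_of_le_one_left (norm_nonneg _) (DirichletCharacter.norm_le_one χ z)
  set bd : (ι → ℤ) → ℝ := fun x =>
    ∑ a ∈ A, ((A.filter (fun a' => (u x a, u x a') ∈ Bad2 L χ B)).card : ℝ) with hbd
  have hbdsum : ∑ x ∈ W, bd x ≤ R := by
    rw [hR]
    unfold badPairs
    push_cast
    simp only [hbd]
    refine Finset.sum_le_sum_of_subset_of_nonneg ?_ fun _ _ _ =>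
      Finset.sum_nonneg fun _ _ => Nat.cast_nonneg _
    intro x hx
    rw [hW, mem_bx] at hx
    rw [mem_bx]
    intro i
    refine (hx i).trans ?_
    push_cast
    linarith
  have hinner : ∀ x, (∑ l ∈ range L, f (lin v x + (l : ZMod p) * z)) ^ 2
      ≤ L * (B * (A.card : ℝ) ^ 2 + L * bd x) := by
    intro x
    have h1 : (∑ l ∈ range L, f (lin v x + (l : ZMod p) * z)) ^ 2
        ≤ (range L).card * ∑ l ∈ range L, f (lin v x + (l : ZMod p) * z) ^ 2 :=
      sq_sum_le_card_mul_sum_sq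
    rw [Finset.card_range] at h1
    refine h1.trans (mul_le_mul_of_nonneg_left ?_ hLR.le)
    refine le_trans ?_ (inner_bound L χ B hB A α hα (u x))
    exact Finset.sum_le_sum fun l hl => pow_le_pow_left₀ (hf0 _) (hfu x l hl) 2
  -- Cauchy–Schwarz over `W`
  have hCS : (∑ x ∈ W, ∑ l ∈ range L, f (lin v x + (l : ZMod p) * z)) ^ 2
      ≤ W.card * ∑ x ∈ W, (L * (B * (A.card : ℝ) ^ 2 + L * bd x)) := by
    refine sq_sum_le_card_mul_sum_sq.trans (mul_le_mul_of_nonneg_left ?_ (Nat.cast_nonneg _))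
    exact Finset.sum_le_sum fun x _ => hinner x
  have hS0 : 0 ≤ ∑ x ∈ bx N, f (lin v x) := Finset.sum_nonneg fun _ _ => hf0 _
  have hfin : (L : ℝ) ^ 2 * (∑ x ∈ bx N, f (lin v x)) ^ 2
      ≤ (L : ℝ) ^ 2 * ((∏ i, (4 * (N i : ℝ) + 1)) *
        (B / L * (A.card : ℝ) ^ 2 * ∏ i, (4 * (N i : ℝ) + 1) + R)) := by
    calc (L : ℝ) ^ 2 * (∑ x ∈ bx N, f (lin v x)) ^ 2 = (L * ∑ x ∈ bx N, f (lin v x)) ^ 2 := by ring
      _ ≤ (∑ x ∈ W, ∑ l ∈ range L, f (lin v x + (l : ZMod p) * z)) ^ 2 :=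
          pow_le_pow_left₀ (by positivity) hLsum 2
      _ ≤ W.card * ∑ x ∈ W, (L * (B * (A.card : ℝ) ^ 2 + L * bd x)) := hCS
      _ = W.card * (L * B * (A.card : ℝ) ^ 2 * W.card + (L : ℝ) ^ 2 * ∑ x ∈ W, bd x) := by
          rw [← Finset.mul_sum, Finset.sum_add_distrib, Finset.sum_const, nsmul_eq_mul,
            ← Finset.mul_sum]
          ring
      _ ≤ W.card * (L * B * (A.card : ℝ) ^ 2 * W.card + (L : ℝ) ^ 2 * R) := by
          refine mul_le_mul_of_nonneg_left ?_ (Nat.cast_nonneg _)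
          exact add_le_add_right (mul_le_mul_of_nonneg_left hbdsum (by positivity)) _
      _ = _ := by
          rw [hWcard]
          field_simp
  have hfin2 := le_of_mul_le_mul_left hfin (by positivity)
  refine hfin2.trans ?_
  refine mul_le_mul_of_nonneg_left ?_ (Finset.prod_nonneg fun i _ => by positivity)
  exact add_le_add_right hRle _

end Pool.Agent.W27.TP
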