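import Pool.Agent.W27.BG.Final

/-! Covering a set of bounded doubling by few translates of a proper box with long sides. -/

set_option autoImplicit false

open Finset
open scoped Pointwise

namespace Pool.Agent.W27.TP

open Pool.Agent.W27.BG Pool.Agent.W27.SD

/-- covering by translates of a box of prescribed volume with long sides -/
theorem cover {K : ℝ} (hK : 1 ≤ K) :
    ∃ (C : ℝ) (D : ℕ), 1 ≤ C ∧ 1 ≤ D ∧ ∀ (p : ℕ) [Fact p.Prime], 3 ≤ p →
      ∀ B : Finset (ZMod p), B.Nonempty → ((B + B).card : ℝ) ≤ K * B.card →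
      ∀ θ Xv : ℝ, 1 ≤ θ → θ ^ D ≤ Xv → 1 < Xv → C * (3 * θ) ^ D * Xv ≤ B.card →
      ∃ (ι : Type) (_ : Fintype ι) (_ : DecidableEq ι) (_ : Nonempty ι) (v : ι → ZMod p)
        (N : ι → ℕ), Fintype.card ι ≤ D ∧ (∀ i, θ ≤ N i) ∧ Xv ≤ ∏ i, (N i : ℝ) ∧
        ∏ i, (N i : ℝ) ≤ 2 ^ D * Xv ∧
        (∀ y : ι → ℤ, (∀ i, |y i| ≤ N i) → lin v y = 0 → y = 0) ∧
        ∀ X : Finset (ZMod p), ∃ S : Finset (ZMod p),
          (S.card : ℝ) * ∏ i, (N i : ℝ) ≤ (C * C * (5 ^ D * C)) * (X.card * B.card) ∧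
          ∀ x ∈ X, ∀ b ∈ B, ∀ b' ∈ B, ∃ s ∈ S, ∃ r : ι → ℤ, (∀ i, |r i| ≤ N i) ∧
            x + (b - b') = s + lin v r := by
  classical
  obtain ⟨C, D, hC1, hD1, hgap⟩ := gap_all hK
  refine ⟨C, D, hC1, hD1, ?_⟩
  intro p _ hp3 B hBne hBK θ Xv hθ1 hθX hX1 hXB
  have hB0 : (0 : ℝ) < B.card := by exact_mod_cast hBne.card_pos
  obtain ⟨k, v, R, T, hkD, hprop, hvol, hT, hcov⟩ := hgap p hp3 B hBne hBK
  -- the long sides
  let ι : Type := {i : Fin k // θ ≤ (R i : ℝ)}
  have hιD : Fintype.card ι ≤ D := by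
    have h1 : Fintype.card ι ≤ Fintype.card (Fin k) := Fintype.card_subtype_le _
    rw [Fintype.card_fin] at h1
    omega
  have hRι : ∀ i : ι, 1 ≤ R i.1 := fun i => by
    have h1 : (1 : ℝ) ≤ R i.1 := hθ1.trans i.2
    exact_mod_cast h1
  -- the box covers B
  have hBle : (B.card : ℝ) ≤ C * ∏ i, (2 * (R i : ℝ) + 1) := by
    have hsub : B ⊆ (T ×ˢ bx R).image (fun q => q.1 + lin v q.2) := by
      intro a ha
      obtain ⟨t, ht, c, hc, e⟩ := hcov a ha
      rw [Finset.mem_image]
      exact ⟨(t, c), Finset.mem_product.2 ⟨ht, mem_bx.2 hc⟩, e.symm⟩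
    have h1 := (Finset.card_le_card hsub).trans Finset.card_image_le
    rw [Finset.card_product, card_bx] at h1
    have h2 : (B.card : ℝ) ≤ T.card * ∏ i, (2 * (R i : ℝ) + 1) := by exact_mod_cast h1
    exact h2.trans (mul_le_mul_of_nonneg_right hT (Finset.prod_nonneg fun i _ => by positivity))
  -- the product over the long sides
  have hsplit : ∏ i, (2 * (R i : ℝ) + 1) ≤ (3 * θ) ^ D * ∏ i : ι, (R i.1 : ℝ) := by
    have h1 : ∀ i : Fin k, (2 * (R i : ℝ) + 1) ≤ (3 * θ) * (if θ ≤ (R i : ℝ) then (R i : ℝ) else 1) := by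
      intro i
      split_ifs with h
      · have h2 : (1 : ℝ) ≤ R i := hθ1.trans h
        nlinarith
      · have h2 := not_le.1 h
        linarith
    calc ∏ i, (2 * (R i : ℝ) + 1)
        ≤ ∏ i, ((3 * θ) * (if θ ≤ (R i : ℝ) then (R i : ℝ) else 1)) :=
          Finset.prod_le_prod (fun i _ => by positivity) (fun i _ => h1 i)
      _ = (3 * θ) ^ k * ∏ i, (if θ ≤ (R i : ℝ) then (R i : ℝ) else 1) := by
          rw [Finset.prod_mul_distrib, Finset.prod_const, Finset.card_univ, Fintype.card_fin]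
      _ = (3 * θ) ^ k * ∏ i : ι, (R i.1 : ℝ) := by
          congr 1
          rw [← Finset.prod_filter]
          exact Finset.prod_subtype _ (by intro i; simp) _
      _ ≤ _ := by
          refine mul_le_mul_of_nonneg_right (pow_le_pow_right₀ (by linarith) hkD) ?_
          exact Finset.prod_nonneg fun i _ => by positivity
  have hXR : Xv ≤ ∏ i : ι, (R i.1 : ℝ) := by
    have h1 : C * (3 * θ) ^ D * Xv ≤ C * (3 * θ) ^ D * ∏ i : ι, (R i.1 : ℝ) := by
      calc C * (3 * θ) ^ D * Xv ≤ B.card := hXB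
        _ ≤ C * ∏ i, (2 * (R i : ℝ) + 1) := hBle
        _ ≤ C * ((3 * θ) ^ D * ∏ i : ι, (R i.1 : ℝ)) :=
            mul_le_mul_of_nonneg_left hsplit (by linarith)
        _ = _ := by ring
    exact le_of_mul_le_mul_left h1 (by positivity)
  obtain ⟨s, hs1, hslow, hsup⟩ := trunc_exists (fun i : ι => R i.1) hRι Xv hX1 hXR
  have hιne : Nonempty ι := by
    by_contra hcon
    rw [not_nonempty_iff] at hcon
    have : ∏ i : ι, (R i.1 : ℝ) = 1 := by simp
    rw [this] at hXR
    linarith
  have hsR : (1 : ℝ) ≤ s := by exact_mod_cast hs1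
  -- the truncated sides
  let N : ι → ℕ := fun i => min (R i.1) s
  have hsθ : θ ≤ s := by
    by_contra hcon
    have hcon := not_le.1 hcon
    have h1 : ∏ i : ι, ((min (R i.1) s : ℕ) : ℝ) ≤ (s : ℝ) ^ (Fintype.card ι) := by
      calc ∏ i : ι, ((min (R i.1) s : ℕ) : ℝ) ≤ ∏ _i : ι, (s : ℝ) :=
            Finset.prod_le_prod (fun _ _ => by positivity) (fun i _ => by
              exact_mod_cast min_le_right _ _)
        _ = _ := by rw [Finset.prod_const, Finset.card_univ]
    have h2 : (s : ℝ) ^ (Fintype.card ι) < θ ^ (Fintype.card ι) :=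
      pow_lt_pow_left₀ hcon (by linarith) Fintype.card_ne_zero
    have h3 : θ ^ (Fintype.card ι) ≤ θ ^ D := pow_le_pow_right₀ hθ1 hιD
    linarith
  have hNθ : ∀ i : ι, θ ≤ N i := by
    intro i
    show θ ≤ ((min (R i.1) s : ℕ) : ℝ)
    rw [Nat.cast_min]
    exact le_min i.2 hsθ
  -- extension by zero
  let ext : (ι → ℤ) → (Fin k → ℤ) := fun y i => if h : θ ≤ (R i : ℝ) then y ⟨i, h⟩ else 0
  have hext : ∀ y : ι → ℤ, lin v (ext y) = lin (fun i : ι => v i.1) y := by
    intro y
    unfold lin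
    have h1 : ∑ i : Fin k, ((ext y i : ℤ) : ZMod p) * v i
        = ∑ i ∈ Finset.univ.filter (fun i : Fin k => θ ≤ (R i : ℝ)),
          ((ext y i : ℤ) : ZMod p) * v i := by
      rw [Finset.sum_filter]
      refine Finset.sum_congr rfl fun i _ => ?_
      split_ifs with h
      · rfl
      · simp [ext, h]
    rw [h1, Finset.sum_subtype (p := fun i : Fin k => θ ≤ (R i : ℝ)) _ (by intro i; simp)]
    refine Finset.sum_congr rfl fun i _ => ?_
    have : ext y i.1 = y i := by simp [ext, i.2]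
    rw [this]
  have hpropN : ∀ y : ι → ℤ, (∀ i, |y i| ≤ N i) → lin (fun i : ι => v i.1) y = 0 → y = 0 := by
    intro y hy hy0
    rw [← hext] at hy0
    have h1 := hprop (ext y) (by
      intro i
      by_cases h : θ ≤ (R i : ℝ)
      · have h2 : ext y i = y ⟨i, h⟩ := by simp [ext, h]
        rw [h2]
        refine (hy ⟨i, h⟩).trans ?_
        exact_mod_cast min_le_left _ _
      · have h2 : ext y i = 0 := by simp [ext, h]
        rw [h2]; simp) hy0
    funext i
    have h2 : ext y i.1 = y i := by simp [ext, i.2]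
    rw [← h2, h1]
    rfl
  -- the decomposition
  let w : Fin k → ℕ := fun i => if θ ≤ (R i : ℝ) then min (R i) s else 1
  have hw1 : ∀ i, 1 ≤ w i := by
    intro i
    by_cases h : θ ≤ (R i : ℝ)
    · have h2 : w i = min (R i) s := by simp [w, h]
      rw [h2]
      exact le_min (hRι ⟨i, h⟩) hs1
    · have h2 : w i = 1 := by simp [w, h]
      rw [h2]
  have hwR : ∀ i, w i ≤ R i + 1 := by
    intro i
    by_cases h : θ ≤ (R i : ℝ)
    · have h2 : w i = min (R i) s := by simp [w, h]
      rw [h2]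
      exact (min_le_left _ _).trans (Nat.le_succ _)
    · have h2 : w i = 1 := by simp [w, h]
      rw [h2]; omega
  have hwprod : ∏ i, (w i : ℝ) = ∏ i, (N i : ℝ) := by
    have h1 : ∏ i, (w i : ℝ) = ∏ i ∈ Finset.univ.filter (fun i : Fin k => θ ≤ (R i : ℝ)),
        ((min (R i) s : ℕ) : ℝ) := by
      rw [Finset.prod_filter]
      refine Finset.prod_congr rfl fun i _ => ?_
      by_cases h : θ ≤ (R i : ℝ)
      · simp [w, h]
      · simp [w, h]
    rw [h1]
    exact Finset.prod_subtype _ (by intro i; simp) _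
  let J : Finset (Fin k → ℤ) := bx (fun i => 2 * R i / w i + 1)
  have hJ : (J.card : ℝ) * ∏ i, (N i : ℝ) ≤ 5 ^ D * (C * B.card) := by
    rw [← hwprod]
    have h1 : J.card * ∏ i, w i ≤ 5 ^ k * ∏ i, (2 * R i + 1) := by
      calc J.card * ∏ i, w i = ∏ i, ((2 * (2 * R i / w i + 1) + 1) * w i) := by
            rw [card_bx, Finset.prod_mul_distrib]
        _ ≤ ∏ i, (5 * (2 * R i + 1)) := by
            refine Finset.prod_le_prod (fun _ _ => Nat.zero_le _) (fun i _ => ?_)
            have h2 : 2 * R i / w i * w i ≤ 2 * R i := Nat.div_mul_le_self _ _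
            have h3 := hwR i
            calc (2 * (2 * R i / w i + 1) + 1) * w i = 2 * (2 * R i / w i * w i) + 3 * w i := by ring
              _ ≤ 4 * R i + 3 * (R i + 1) := by omega
              _ ≤ 5 * (2 * R i + 1) := by omega
        _ = _ := by
            rw [Finset.prod_mul_distrib, Finset.prod_const, Finset.card_univ, Fintype.card_fin]
    have h2 : (J.card : ℝ) * ∏ i, (w i : ℝ) ≤ 5 ^ k * ∏ i, (2 * (R i : ℝ) + 1) := by
      exact_mod_cast h1
    refine h2.trans ?_
    have h3 : (5 : ℝ) ^ k ≤ 5 ^ D := pow_le_pow_right₀ (by norm_num) hkD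
    exact mul_le_mul h3 hvol (Finset.prod_nonneg fun i _ => by positivity) (by positivity)
  have hNpos : 0 ≤ ∏ i, (N i : ℝ) := Finset.prod_nonneg fun i _ => by positivity
  refine ⟨ι, inferInstance, inferInstance, hιne, fun i => v i.1, N, hιD, hNθ, hslow, ?_, hpropN, ?_⟩
  · exact hsup.trans (mul_le_mul_of_nonneg_right (pow_le_pow_right₀ (by norm_num) hιD)
      (by linarith))
  intro X
  refine ⟨((X + (T - T)) ×ˢ J).image (fun q => q.1 + lin v (fun i => q.2 i * w i)), ?_, ?_⟩
  · have h0 : ((((X + (T - T)) ×ˢ J).image (fun q => q.1 + lin v (fun i => q.2 i * w i))).card : ℝ)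
        ≤ (X.card * (C * C)) * J.card := by
      have h1 : (((X + (T - T)) ×ˢ J).image (fun q => q.1 + lin v (fun i => q.2 i * w i))).card
          ≤ (X.card * (T.card * T.card)) * J.card := by
        refine Finset.card_image_le.trans ?_
        rw [Finset.card_product]
        refine Nat.mul_le_mul_right _ ?_
        exact Finset.card_add_le.trans (Nat.mul_le_mul_left _ Finset.card_sub_le)
      have h2 : ((((X + (T - T)) ×ˢ J).image (fun q => q.1 + lin v (fun i => q.2 i * w i))).card : ℝ)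
          ≤ (X.card * (T.card * T.card)) * J.card := by exact_mod_cast h1
      refine h2.trans (mul_le_mul_of_nonneg_right ?_ (Nat.cast_nonneg _))
      refine mul_le_mul_of_nonneg_left ?_ (Nat.cast_nonneg _)
      exact mul_le_mul hT hT (Nat.cast_nonneg _) (by linarith)
    calc _ ≤ ((X.card * (C * C)) * J.card) * ∏ i, (N i : ℝ) :=
          mul_le_mul_of_nonneg_right h0 hNpos
      _ = (X.card * (C * C)) * (J.card * ∏ i, (N i : ℝ)) := by ring
      _ ≤ (X.card * (C * C)) * (5 ^ D * (C * B.card)) :=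
          mul_le_mul_of_nonneg_left hJ (by positivity)
      _ = _ := by ring
  · intro x hx b hb b' hb'
    obtain ⟨t1, ht1, c1, hc1, e1⟩ := hcov b hb
    obtain ⟨t2, ht2, c2, hc2, e2⟩ := hcov b' hb'
    obtain ⟨c, hcdef⟩ : ∃ c : Fin k → ℤ, c = c1 - c2 := ⟨_, rfl⟩
    have hc : ∀ i, |c i| ≤ ((2 * R i : ℕ) : ℤ) := by
      intro i
      rw [hcdef, Pi.sub_apply]
      calc |c1 i - c2 i| ≤ |c1 i| + |c2 i| := abs_sub _ _
        _ ≤ R i + R i := add_le_add (hc1 i) (hc2 i)
        _ = ((2 * R i : ℕ) : ℤ) := by push_cast; ring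
    refine ⟨(x + (t1 - t2)) + lin v (fun i => c i / w i * w i), ?_,
      fun i => c i.1 % w i.1, ?_, ?_⟩
    · rw [Finset.mem_image]
      refine ⟨(x + (t1 - t2), fun i => c i / w i), ?_, rfl⟩
      rw [Finset.mem_product]
      refine ⟨Finset.add_mem_add hx (Finset.sub_mem_sub ht1 ht2), ?_⟩
      rw [mem_bx]
      intro i
      have hwi : (0 : ℤ) < w i := by exact_mod_cast hw1 i
      have h1 := abs_le.1 (hc i)
      have h2 : c i / w i ≤ ((2 * R i : ℕ) : ℤ) / w i := Int.ediv_le_ediv hwi h1.2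
      have h3 : -(((2 * R i : ℕ) : ℤ)) / w i ≤ c i / w i := Int.ediv_le_ediv hwi h1.1
      have h4 : -(((2 * R i : ℕ) : ℤ) / w i + 1) ≤ -(((2 * R i : ℕ) : ℤ)) / w i := by
        rw [Int.le_ediv_iff_mul_le hwi]
        have h5 := Int.lt_ediv_add_one_mul_self ((2 * R i : ℕ) : ℤ) hwi
        nlinarith
      rw [abs_le]
      have h6 : ((2 * R i / w i + 1 : ℕ) : ℤ) = ((2 * R i : ℕ) : ℤ) / w i + 1 := by
        push_cast
        rfl
      rw [h6]
      constructor
      · exact h4.trans h3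
      · linarith
    · intro i
      have hwi : (0 : ℤ) < w i.1 := by exact_mod_cast hw1 i.1
      have h1 := Int.emod_nonneg (c i.1) hwi.ne'
      have h2 := Int.emod_lt_of_pos (c i.1) hwi
      have h3 : w i.1 = N i := by simp [w, N, i.2]
      rw [abs_of_nonneg h1]
      rw [h3] at h2 ⊢
      exact h2.le
    · have e3 : x + (b - b') = (x + (t1 - t2)) + lin v c := by
        rw [e1, e2, hcdef, lin_sub]
        ring
      have e4 : lin v c = lin v (fun i => c i / w i * w i)
          + lin (fun i : ι => v i.1) (fun i => c i.1 % w i.1) := by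
        rw [← hext, ← lin_add]
        congr 1
        funext i
        rw [Pi.add_apply]
        by_cases h : θ ≤ (R i : ℝ)
        · have h2 : ext (fun i : ι => c i.1 % w i.1) i = c i % w i := by simp [ext, h]
          rw [h2]
          have := Int.mul_ediv_add_emod (c i) (w i)
          linarith
        · have h2 : ext (fun i : ι => c i.1 % w i.1) i = 0 := by simp [ext, h]
          have h3 : w i = 1 := by simp [w, h]
          rw [h2]
          simp only [h3]
          simp
      rw [e3, e4]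
      ring

end Pool.Agent.W27.TP
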