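import Pool.Agent.W27.BG.Good

/-! Two-point correlations of a character along short intervals. -/

set_option autoImplicit false

namespace Pool.Agent.W27.TP

open Finset Pool.Agent.H471R4.BW Pool.Agent.H435R3.Paley Pool.Agent.W27.BG

open Classical in
/-- high moment of the two-point correlation over all pairs of shifts -/
theorem mom2 {N : ℕ} [NeZero N] (χ : DirichletCharacter ℂ N) (r n : ℕ) (K : ℝ) (hr : 1 ≤ r)
    (hK : 0 ≤ K) (w : Fin n → ZMod N) (hw : Function.Injective w) (hC : Complete N χ r N K) :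
    ∑ x : ZMod N, ∑ y : ZMod N,
      ‖∑ j, χ (x + w j) * (starRingEnd ℂ) (χ (y + w j))‖ ^ (2 * r) ≤
      (r : ℝ) ^ (2 * r) * (n : ℝ) ^ r * (N : ℝ) ^ 2 + K ^ 2 * (n : ℝ) ^ (2 * r) * N := by
  have hexp : ∀ x y : ZMod N,
      ((‖∑ j, χ (x + w j) * (starRingEnd ℂ) (χ (y + w j))‖ ^ (2 * r) : ℝ) : ℂ) =
        ∑ u : (Fin r → Fin n) × (Fin r → Fin n),
          term χ r n w u.1 u.2 x * (starRingEnd ℂ) (term χ r n w u.1 u.2 y) := by
    intro x y
    set S : ℂ := ∑ j, χ (x + w j) * (starRingEnd ℂ) (χ (y + w j)) with hS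
    have h1 : ((‖S‖ ^ (2 * r) : ℝ) : ℂ) = S ^ r * (starRingEnd ℂ) S ^ r := by
      rw [← mul_pow, Complex.mul_conj, Complex.normSq_eq_norm_sq, pow_mul]
      push_cast
      ring
    have h2 : S ^ r = ∑ b : Fin r → Fin n,
        ∏ i, (χ (x + w (b i)) * (starRingEnd ℂ) (χ (y + w (b i)))) := by
      rw [hS, ← Fin.prod_const, Finset.prod_univ_sum, Fintype.piFinset_univ]
    have h3 : (starRingEnd ℂ) S ^ r = ∑ c : Fin r → Fin n,
        ∏ i, ((starRingEnd ℂ) (χ (x + w (c i))) * χ (y + w (c i))) := by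
      rw [hS, map_sum, ← Fin.prod_const, Finset.prod_univ_sum, Fintype.piFinset_univ]
      refine Finset.sum_congr rfl fun c _ => Finset.prod_congr rfl fun i _ => ?_
      rw [map_mul, Complex.conj_conj]
    rw [h1, h2, h3, Finset.sum_mul_sum, ← Finset.univ_product_univ, Finset.sum_product]
    refine Finset.sum_congr rfl fun b _ => Finset.sum_congr rfl fun c _ => ?_
    unfold term
    rw [Finset.prod_mul_distrib, Finset.prod_mul_distrib, map_mul, map_prod, map_prod]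
    simp only [Complex.conj_conj]
    ring
  have hW : ((∑ x : ZMod N, ∑ y : ZMod N,
      ‖∑ j, χ (x + w j) * (starRingEnd ℂ) (χ (y + w j))‖ ^ (2 * r) : ℝ) : ℂ) =
      ((∑ u : (Fin r → Fin n) × (Fin r → Fin n), ‖∑ x : ZMod N, term χ r n w u.1 u.2 x‖ ^ 2 : ℝ)
        : ℂ) := by
    push_cast
    have e1 : ∀ u : (Fin r → Fin n) × (Fin r → Fin n),
        ((‖∑ x : ZMod N, term χ r n w u.1 u.2 x‖ : ℝ) : ℂ) ^ 2
        = ∑ x : ZMod N, ∑ y : ZMod N,
          term χ r n w u.1 u.2 x * (starRingEnd ℂ) (term χ r n w u.1 u.2 y) := by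
      intro u
      rw [← Complex.mul_conj', map_sum, Finset.sum_mul_sum]
    simp only [e1]
    have e2 : ∑ u : (Fin r → Fin n) × (Fin r → Fin n), ∑ x : ZMod N, ∑ y : ZMod N,
          term χ r n w u.1 u.2 x * (starRingEnd ℂ) (term χ r n w u.1 u.2 y)
        = ∑ x : ZMod N, ∑ y : ZMod N, ∑ u : (Fin r → Fin n) × (Fin r → Fin n),
          term χ r n w u.1 u.2 x * (starRingEnd ℂ) (term χ r n w u.1 u.2 y) := by
      rw [Finset.sum_comm]
      refine Finset.sum_congr rfl fun x _ => ?_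
      rw [Finset.sum_comm]
    rw [e2]
    refine Finset.sum_congr rfl fun x _ => Finset.sum_congr rfl fun y _ => ?_
    have := hexp x y
    push_cast at this
    exact this
  have hW' : ∑ x : ZMod N, ∑ y : ZMod N,
      ‖∑ j, χ (x + w j) * (starRingEnd ℂ) (χ (y + w j))‖ ^ (2 * r) =
      ∑ u : (Fin r → Fin n) × (Fin r → Fin n), ‖∑ x : ZMod N, term χ r n w u.1 u.2 x‖ ^ 2 := by
    exact_mod_cast hW
  rw [hW']
  rw [← Finset.sum_filter_add_sum_filter_not Finset.univ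
    (fun u : (Fin r → Fin n) × (Fin r → Fin n) =>
      ¬ Uniq (fun i => (u.1 i : ℕ)) (fun i => (u.2 i : ℕ)))]
  refine add_le_add ?_ ?_
  · have h1 : ∀ u ∈ Finset.univ.filter (fun u : (Fin r → Fin n) × (Fin r → Fin n) =>
        ¬ Uniq (fun i => (u.1 i : ℕ)) (fun i => (u.2 i : ℕ))),
        ‖∑ x : ZMod N, term χ r n w u.1 u.2 x‖ ^ 2 ≤ (N : ℝ) ^ 2 := by
      intro u _
      refine pow_le_pow_left₀ (norm_nonneg _) ?_ 2
      refine (norm_sum_le _ _).trans ?_
      calc ∑ x : ZMod N, ‖term χ r n w u.1 u.2 x‖ ≤ ∑ _x : ZMod N, (1 : ℝ) :=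
            Finset.sum_le_sum fun x _ => term_norm_le χ r n w u.1 u.2 x
        _ = N := by simp
    refine (Finset.sum_le_card_nsmul _ _ _ h1).trans ?_
    rw [nsmul_eq_mul]
    have h2 : (((Finset.univ.filter (fun u : (Fin r → Fin n) × (Fin r → Fin n) =>
        ¬ Uniq (fun i => (u.1 i : ℕ)) (fun i => (u.2 i : ℕ)))).card : ℕ) : ℝ) ≤
        (r : ℝ) ^ (2 * r) * (n : ℝ) ^ r := by
      exact_mod_cast tup r n hr
    exact mul_le_mul_of_nonneg_right h2 (by positivity)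
  · have h1 : ∀ u ∈ Finset.univ.filter (fun u : (Fin r → Fin n) × (Fin r → Fin n) =>
        ¬ ¬ Uniq (fun i => (u.1 i : ℕ)) (fun i => (u.2 i : ℕ))),
        ‖∑ x : ZMod N, term χ r n w u.1 u.2 x‖ ^ 2 ≤ K ^ 2 * N := by
      intro u hu
      rw [Finset.mem_filter] at hu
      have h3 := hC (fun i => (w (u.1 i)).val) (fun i => (w (u.2 i)).val)
        (fun i => ZMod.val_lt _) (fun i => ZMod.val_lt _)
        (uniq_val w hw u.1 u.2 (not_not.1 hu.2))
      simp only [ZMod.natCast_zmod_val] at h3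
      calc ‖∑ x : ZMod N, term χ r n w u.1 u.2 x‖ ^ 2 ≤ (K * Real.sqrt N) ^ 2 :=
            pow_le_pow_left₀ (norm_nonneg _) h3 2
        _ = K ^ 2 * N := by rw [mul_pow, Real.sq_sqrt (Nat.cast_nonneg _)]
    refine (Finset.sum_le_card_nsmul _ _ _ h1).trans ?_
    rw [nsmul_eq_mul]
    have h2 : (((Finset.univ.filter (fun u : (Fin r → Fin n) × (Fin r → Fin n) =>
        ¬ ¬ Uniq (fun i => (u.1 i : ℕ)) (fun i => (u.2 i : ℕ)))).card : ℕ) : ℝ) ≤
        (n : ℝ) ^ (2 * r) := by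
      have h3 := Finset.card_filter_le (Finset.univ : Finset ((Fin r → Fin n) × (Fin r → Fin n)))
        (fun u => ¬ ¬ Uniq (fun i => (u.1 i : ℕ)) (fun i => (u.2 i : ℕ)))
      have h4 : (Finset.univ : Finset ((Fin r → Fin n) × (Fin r → Fin n))).card = n ^ (2 * r) := by
        rw [Finset.card_univ, Fintype.card_prod, Fintype.card_fun, Fintype.card_fin,
          Fintype.card_fin, two_mul, pow_add]
      rw [h4] at h3
      exact_mod_cast h3
    calc _ ≤ (n : ℝ) ^ (2 * r) * (K ^ 2 * N) :=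
          mul_le_mul_of_nonneg_right h2 (by positivity)
      _ = K ^ 2 * (n : ℝ) ^ (2 * r) * N := by ring

variable {p : ℕ} [Fact p.Prime]

/-- the two-point correlation along `L` consecutive shifts -/
noncomputable def G2 (L : ℕ) (χ : DirichletCharacter ℂ p) (u u' : ZMod p) : ℂ :=
  ∑ l ∈ range L, χ (u + (l : ZMod p)) * (starRingEnd ℂ) (χ (u' + (l : ZMod p)))

/-- the pairs with a large correlation -/
noncomputable def Bad2 (L : ℕ) (χ : DirichletCharacter ℂ p) (B : ℝ) : Finset (ZMod p × ZMod p) :=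
  univ.filter fun q => B < ‖G2 L χ q.1 q.2‖

theorem mem_Bad2 {L : ℕ} {χ : DirichletCharacter ℂ p} {B : ℝ} {q : ZMod p × ZMod p} :
    q ∈ Bad2 L χ B ↔ B < ‖G2 L χ q.1 q.2‖ := by
  unfold Bad2
  simp

theorem G2_le (L : ℕ) (χ : DirichletCharacter ℂ p) (u u' : ZMod p) : ‖G2 L χ u u'‖ ≤ L := by
  unfold G2
  refine (norm_sum_le _ _).trans ?_
  calc ∑ l ∈ range L, ‖χ (u + (l : ZMod p)) * (starRingEnd ℂ) (χ (u' + (l : ZMod p)))‖
      ≤ ∑ _l ∈ range L, (1 : ℝ) := by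
        refine Finset.sum_le_sum fun l _ => ?_
        rw [norm_mul, RCLike.norm_conj]
        exact mul_le_one₀ (DirichletCharacter.norm_le_one χ _) (norm_nonneg _)
          (DirichletCharacter.norm_le_one χ _)
    _ = L := by simp

theorem bad2_bound (L : ℕ) (hL : L ≤ p) (χ : DirichletCharacter ℂ p) (hχ : χ ≠ 1) (B : ℝ)
    (hB : 0 ≤ B) (k : ℕ) (hk : 1 ≤ k) :
    ((Bad2 L χ B).card : ℝ) * B ^ (2 * k)
      ≤ (k : ℝ) ^ (2 * k) * (L : ℝ) ^ k * (p : ℝ) ^ 2 + (2 * k) ^ 2 * (L : ℝ) ^ (2 * k) * p := by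
  classical
  have h := mom2 χ k L (2 * k) hk (by positivity) (fun j : Fin L => ((j : ℕ) : ZMod p)) (by
    intro i j hij
    simp only at hij
    rw [ZMod.natCast_eq_natCast_iff'] at hij
    rw [Nat.mod_eq_of_lt (i.2.trans_le hL), Nat.mod_eq_of_lt (j.2.trans_le hL)] at hij
    exact Fin.ext hij) (complete_all p χ hχ k)
  have e : ∀ x y : ZMod p, ∑ j : Fin L, χ (x + ((j : ℕ) : ZMod p)) *
      (starRingEnd ℂ) (χ (y + ((j : ℕ) : ZMod p))) = G2 L χ x y := by
    intro x y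
    unfold G2
    rw [Finset.sum_range]
  simp only [e] at h
  refine le_trans ?_ h
  rw [← nsmul_eq_mul, ← Finset.sum_const, ← Finset.sum_product', Finset.univ_product_univ]
  calc ∑ _q ∈ Bad2 L χ B, B ^ (2 * k)
      ≤ ∑ q ∈ Bad2 L χ B, ‖G2 L χ q.1 q.2‖ ^ (2 * k) :=
        Finset.sum_le_sum fun q hq => pow_le_pow_left₀ hB (mem_Bad2.1 hq).le _
    _ ≤ _ := Finset.sum_le_sum_of_subset_of_nonneg (Finset.subset_univ _)
        fun _ _ _ => by positivity

end Pool.Agent.W27.TP
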