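import Pool.Agent.W27.TP.Box

/-! Numerical form of the bound over one progression. -/

set_option autoImplicit false

namespace Pool.Agent.W27.TP

open Finset Pool.Agent.W27.BG

/-- the choice of the parameters -/
theorem params {ι : Type*} [Fintype ι] [Nonempty ι]
    (D : ℕ) (hD : Fintype.card ι ≤ D) (N : ι → ℕ) (L : ℕ) (hL48 : 48 * D ≤ L)
    (hN : ∀ i, L ^ (D + 1) ≤ N i) :
    ∃ (M Q : ι → ℕ) (m : ℕ), (∀ i, 1 ≤ M i) ∧ (∀ i, L * M i ≤ N i) ∧ 1 ≤ m ∧
      (∀ i, 6 * Fintype.card ι * (4 * N i) ≤ m * Q i) ∧ (∀ i, Q i ≤ N i) ∧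
      (m : ℝ) ^ (2 * Fintype.card ι - 1) * (∏ i, (2 * (Q i : ℝ) + 1)) ^ 2 * (1 / ∏ i, (M i : ℝ))
        ≤ 2 ^ D * (51 * D) ^ (2 * D) * (1 / L) * ∏ i, (N i : ℝ) ∧
      (m : ℝ) ^ (2 * Fintype.card ι - 1) * (1 / ∏ i, (M i : ℝ))
        ≤ 2 ^ D * (L : ℝ) ^ (4 * (D + 1) ^ 2) / ∏ i, (N i : ℝ) := by
  classical
  set d := Fintype.card ι with hd
  have hd1 : 1 ≤ d := Fintype.card_pos
  have hD1 : 1 ≤ D := hd1.trans hD
  have hL1 : 1 ≤ L := by omega
  have hLR : (1 : ℝ) ≤ L := by exact_mod_cast hL1
  have hL0 : (0 : ℝ) < L := by linarith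
  set m : ℕ := L ^ (D + 1) with hm
  have hm1 : 1 ≤ m := Nat.one_le_pow _ _ (by omega)
  have hmL : L ≤ m := by
    calc L = L ^ 1 := (pow_one L).symm
      _ ≤ L ^ (D + 1) := Nat.pow_le_pow_right (by omega) (by omega)
  have hN1 : ∀ i, 1 ≤ N i := fun i => hm1.trans (hN i)
  have hmR : (1 : ℝ) ≤ m := by exact_mod_cast hm1
  -- the parameters
  let M : ι → ℕ := fun i => N i / L
  let Q : ι → ℕ := fun i => 24 * d * N i / m + 1
  have hM1 : ∀ i, 1 ≤ M i := fun i => (Nat.one_le_div_iff (by omega)).2 (hmL.trans (hN i))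
  have hMN : ∀ i, L * M i ≤ N i := fun i => Nat.mul_div_le _ _
  have hQ : ∀ i, 6 * d * (4 * N i) ≤ m * Q i := by
    intro i
    have h1 := Nat.lt_mul_div_succ (24 * d * N i) (show 0 < m by omega)
    have h2 : 6 * d * (4 * N i) = 24 * d * N i := by ring
    rw [h2]
    exact h1.le
  have hQN : ∀ i, Q i ≤ N i := by
    intro i
    have h1 : 24 * d * N i / m ≤ N i / 2 := by
      apply Nat.div_le_of_le_mul
      have h2 : 48 * d ≤ m := (Nat.mul_le_mul_left 48 hD).trans (hL48.trans hmL)
      have h3 : 24 * d * N i ≤ m * (N i / 2) := by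
        have h4 : 2 ≤ N i := by
          have := hN i
          omega
        have h5 : N i ≤ 2 * (N i / 2) + 1 := by omega
        have h6 : 1 ≤ N i / 2 := by omega
        -- `24 d N ≤ 48 d (N/2) + 24 d`, need a little room
        rcases Nat.even_or_odd (N i) with he | ho
        · obtain ⟨r, hr⟩ := he
          have h7 : N i / 2 = r := by omega
          rw [h7, hr]
          nlinarith
        · obtain ⟨r, hr⟩ := ho
          have h7 : N i / 2 = r := by omega
          rw [h7, hr]
          have h8 : 48 * D ≤ m := hL48.trans hmL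
          -- m ≤ N i = 2 r + 1
          have h9 := hN i
          rw [hr] at h9
          have h10 : 24 * d ≤ r := by omega
          have h11 : 48 * d + 1 ≤ m ∨ m = 48 * d := by omega
          rcases h11 with h11 | h11
          · nlinarith
          · exfalso
            have h12 : L = 48 * d := by omega
            have h13 : m = L ^ (D + 1) := rfl
            have h14 : L ^ 2 ≤ L ^ (D + 1) := Nat.pow_le_pow_right (by omega) (by omega)
            have h15 : L ^ 2 = L * L := sq L
            have h16 : 48 ≤ L := by omega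
            nlinarith
      exact h3
    show 24 * d * N i / m + 1 ≤ N i
    have h4 : 2 ≤ N i := by
      have := hN i
      omega
    omega
  have hNR : ∀ i, (1 : ℝ) ≤ N i := fun i => by exact_mod_cast hN1 i
  have hNpos : (0 : ℝ) < ∏ i, (N i : ℝ) := Finset.prod_pos fun i _ => by
    have := hNR i
    linarith
  set Pn := ∏ i, (N i : ℝ) with hPn
  -- the product of the `M i`
  have hMprod : Pn / (2 * L : ℝ) ^ d ≤ ∏ i, (M i : ℝ) := by
    rw [div_le_iff₀ (by positivity)]
    calc Pn ≤ ∏ i, ((M i : ℝ) * (2 * L)) := by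
          refine Finset.prod_le_prod (fun i _ => by positivity) (fun i _ => ?_)
          have h2 : N i ≤ M i * (2 * L) := by
            have h3 := Nat.lt_mul_div_succ (N i) (show 0 < L by omega)
            have h4 : L ≤ M i * L := Nat.le_mul_of_pos_left L (hM1 i)
            have h5 : L * (N i / L + 1) = M i * L + L := by
              show L * (N i / L + 1) = N i / L * L + L
              ring
            have h6 : M i * (2 * L) = M i * L + M i * L := by ring
            omega
          exact_mod_cast h2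
      _ = (∏ i, (M i : ℝ)) * (2 * L) ^ d := by
          rw [Finset.prod_mul_distrib, Finset.prod_const, Finset.card_univ]
  have hMpos : (0 : ℝ) < ∏ i, (M i : ℝ) := Finset.prod_pos fun i _ => by exact_mod_cast hM1 i
  have hMinv : 1 / ∏ i, (M i : ℝ) ≤ (2 * L : ℝ) ^ d / Pn := by
    rw [div_le_div_iff₀ hMpos hNpos, one_mul]
    rw [div_le_iff₀ (by positivity)] at hMprod
    linarith
  -- the product of the `Q i`
  have hQprod : ∏ i, (2 * (Q i : ℝ) + 1) ≤ ((51 * D) / m : ℝ) ^ d * Pn := by
    calc ∏ i, (2 * (Q i : ℝ) + 1) ≤ ∏ i, (((51 * D) / m : ℝ) * N i) := by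
          refine Finset.prod_le_prod (fun i _ => by positivity) (fun i _ => ?_)
          have h2 : (Q i : ℝ) ≤ 24 * d * N i / m + 1 := by
            show (((24 * d * N i / m + 1 : ℕ)) : ℝ) ≤ 24 * d * N i / m + 1
            push_cast
            have := @Nat.cast_div_le ℝ _ _ _ (24 * d * N i) m
            push_cast at this
            linarith
          have h3 : (1 : ℝ) ≤ N i / m := by
            rw [le_div_iff₀ (by linarith), one_mul]
            exact_mod_cast hN i
          have hdD : (d : ℝ) ≤ D := by exact_mod_cast hD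
          have hD1R : (1 : ℝ) ≤ D := by exact_mod_cast hD1
          have h4 : (24 * d * N i / m : ℝ) = 24 * d * (N i / m) := by ring
          have h5 : ((51 * D) / m : ℝ) * N i = 51 * D * (N i / m) := by ring
          rw [h5]
          rw [h4] at h2
          nlinarith
      _ = _ := by rw [Finset.prod_mul_distrib, Finset.prod_const, Finset.card_univ]
  have hD1R : (1 : ℝ) ≤ D := by exact_mod_cast hD1
  have hmpow : (m : ℝ) = (L : ℝ) ^ (D + 1) := by rw [hm]; push_cast; rfl
  -- the `Q` part
  have hsecond : (m : ℝ) ^ (2 * d - 1) * (∏ i, (2 * (Q i : ℝ) + 1)) ^ 2 * (1 / ∏ i, (M i : ℝ))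
      ≤ 2 ^ D * (51 * D) ^ (2 * D) * (1 / L) * Pn := by
    have h2 : (∏ i, (2 * (Q i : ℝ) + 1)) ^ 2 ≤ (((51 * D) / m : ℝ) ^ d * Pn) ^ 2 :=
      pow_le_pow_left₀ (Finset.prod_nonneg fun i _ => by positivity) hQprod 2
    calc (m : ℝ) ^ (2 * d - 1) * (∏ i, (2 * (Q i : ℝ) + 1)) ^ 2 * (1 / ∏ i, (M i : ℝ))
        ≤ (m : ℝ) ^ (2 * d - 1) * (((51 * D) / m : ℝ) ^ d * Pn) ^ 2 * ((2 * L : ℝ) ^ d / Pn) := by
          refine mul_le_mul (mul_le_mul_of_nonneg_left h2 (by positivity)) hMinv (by positivity)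
            (by positivity)
      _ = (2 : ℝ) ^ d * (51 * D) ^ (2 * d) * ((m : ℝ) ^ (2 * d - 1) * L ^ d / m ^ (2 * d)) * Pn := by
          rw [mul_pow, ← pow_mul, div_pow, mul_pow 2 (L : ℝ), mul_comm d 2]
          field_simp
      _ ≤ (2 : ℝ) ^ D * (51 * D) ^ (2 * D) * (1 / L) * Pn := by
          refine mul_le_mul_of_nonneg_right ?_ hNpos.le
          refine mul_le_mul ?_ ?_ (by positivity) (by positivity)
          · refine mul_le_mul (pow_le_pow_right₀ (by norm_num) hD) ?_ (by positivity)
              (by positivity)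
            exact pow_le_pow_right₀ (by linarith) (Nat.mul_le_mul_left 2 hD)
          · have h3 : (m : ℝ) ^ (2 * d) = m ^ (2 * d - 1) * m := by
              rw [← pow_succ]
              congr 1
              omega
            rw [h3, div_le_div_iff₀ (by positivity) hL0, one_mul]
            have h4 : (L : ℝ) ^ d * L ≤ m := by
              rw [← pow_succ, hmpow]
              exact pow_le_pow_right₀ hLR (by omega)
            calc (m : ℝ) ^ (2 * d - 1) * L ^ d * L = m ^ (2 * d - 1) * (L ^ d * L) := by ring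
              _ ≤ m ^ (2 * d - 1) * m := mul_le_mul_of_nonneg_left h4 (by positivity)
  -- the other part
  have hthird : (m : ℝ) ^ (2 * d - 1) * (1 / ∏ i, (M i : ℝ))
      ≤ 2 ^ D * (L : ℝ) ^ (4 * (D + 1) ^ 2) / Pn := by
    calc (m : ℝ) ^ (2 * d - 1) * (1 / ∏ i, (M i : ℝ))
        ≤ (m : ℝ) ^ (2 * d - 1) * ((2 * L : ℝ) ^ d / Pn) :=
          mul_le_mul_of_nonneg_left hMinv (by positivity)
      _ = 2 ^ d * ((m : ℝ) ^ (2 * d - 1) * L ^ d) / Pn := by
          rw [mul_pow]
          ring
      _ ≤ _ := by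
          refine div_le_div_of_nonneg_right ?_ hNpos.le
          refine mul_le_mul ?_ ?_ (by positivity) (by positivity)
          · exact pow_le_pow_right₀ (by norm_num) hD
          · rw [hmpow, ← pow_mul, ← pow_add]
            refine pow_le_pow_right₀ hLR ?_
            have h5 : (D + 1) * (2 * d - 1) ≤ (D + 1) * (2 * D) :=
              Nat.mul_le_mul_left _ (by omega)
            nlinarith
  exact ⟨M, Q, m, hM1, hMN, hm1, hQ, hQN, hsecond, hthird⟩

end Pool.Agent.W27.TP
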